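import Pool.Agent.H238R3.Fam3

set_option autoImplicit false

/-!
# The threats of the second kind (badly approximable vectors), with arbitrarily small weight

Adapted from `Pool.Agent.H238R3.Build951` (starting library).
-/

namespace Pool.Agent.Y754.GD

open Pool.Agent.H238R3.Lines Pool.Agent.H238R3.Game Pool.Agent.H238R3.Fam

theorem systemD (ζ δ η : ℝ) (hη : 0 < η) (hδ : 0 < δ)
    (hbad : ∀ q p : ℤ, q ≠ 0 → δ ≤ |(q:ℝ)| * |(q:ℝ)*ζ - p|) :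
    ∃ (Thr : ℕ → Set (ℝ × ℝ)) (κ : ℝ), 0 < κ ∧
      (∀ n, ∀ t ∈ Thr n, 0 < t.2 ∧ t.2 ≤ η * rho n) ∧
      (∀ (n : ℕ) (x : ℝ), (∀ m < n, ∀ t ∈ Thr m, ¬ (|x - t.1| + rho n ≤ t.2)) →
        Small (rho n) {t | t ∈ Thr n ∧ |t.1 - x| < t.2 + rho n} η) ∧
      ∀ ξ : ℝ, (∀ n, ∀ t ∈ Thr n, t.2 ≤ |ξ - t.1|) →
      ∀ (v : ℤ × ℤ × ℤ), Prim v → 0 < v.1 →
        κ ≤ Real.sqrt (v.1:ℝ) * max |(v.2.1:ℝ) - ζ * v.1| |(v.1:ℝ) * ξ - v.2.2| := by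
  classical
  obtain ⟨N, hN⟩ := exists_nat_ge (max (max (2^60) (1/δ)) (2^40/η))
  have hN60 : 2^60 ≤ (N:ℝ) := (le_max_left _ _).trans ((le_max_left _ _).trans hN)
  have hNη : 2^40 ≤ (N:ℝ) * η := by
    have := (le_max_right _ _).trans hN
    rwa [div_le_iff₀ hη] at this
  have hN47 : 2^47 ≤ (N:ℝ) := le_trans (by norm_num) hN60
  have hNδ : 1 ≤ (N:ℝ) * δ := by
    have := (le_max_right _ _).trans ((le_max_left _ _).trans hN)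
    rwa [div_le_iff₀ hδ] at this
  have hN0 : (0:ℝ) < N := by linarith [show (0:ℝ) < 2^47 by positivity]
  have hN1 : (1:ℝ) ≤ N := by linarith [show (1:ℝ) ≤ 2^47 by norm_num]
  obtain ⟨κ, hκ⟩ : ∃ κ : ℝ, κ = 1/(N:ℝ)^12 := ⟨_, rfl⟩
  obtain ⟨κ3, hκ3⟩ : ∃ κ3 : ℝ, κ3 = 1/(N:ℝ)^24 := ⟨_, rfl⟩
  have hκ0 : 0 < κ := by rw [hκ]; positivity
  have hκ30 : 0 < κ3 := by rw [hκ3]; positivity
  have hκδ : 4 * κ ≤ δ := by
    have h1 : κ * N ≤ δ * N * κ * N := by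
      calc κ * N = 1 * (κ * N) := (one_mul _).symm
        _ ≤ (N * δ) * (κ * N) := by gcongr
        _ = δ * N * κ * N := by ring
    have h2 : 4 * (κ * N) ≤ 1 := by
      rw [hκ]
      have : (1/(N:ℝ)^12) * N = 1/(N:ℝ)^11 := by field_simp
      rw [this, mul_one_div, div_le_one (by positivity)]
      calc (4:ℝ) ≤ 2^47 := by norm_num
        _ ≤ (N:ℝ) := hN47
        _ = (N:ℝ)^1 := (pow_one _).symm
        _ ≤ (N:ℝ)^11 := pow_le_pow_right₀ hN1 (by norm_num)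
    nlinarith
  let Thr : ℕ → Set (ℝ × ℝ) := fun n =>
    {t | (∃ i l v, okP2 ζ (rho n) κ (2^i) (2^l) v ∧ t = thP2 κ (2^i) v) ∨
      (∃ i d w, okD2 (rho n) (2^i) (2^(i+d)) w ∧ t = thD2 ζ κ3 w)}
  -- g ≤ f for points
  have hgf : ∀ (i l : ℕ) (v : ℤ × ℤ × ℤ), 0 < v.1 → (v.1:ℝ) < 4 * ((2:ℝ)^i)^2 →
      (2:ℝ)^i * ((2:ℝ)^l)^3 * |(v.2.1:ℝ) - ζ * v.1| ≤ κ → ((2:ℝ)^l)^3 ≤ (2:ℝ)^i := by
    intro i l v hv0 h1 h2
    have hq : (0:ℝ) < (v.1:ℝ) := by exact_mod_cast hv0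
    have hb := hbad v.1 v.2.1 (by omega)
    rw [abs_of_pos hq, show (v.1:ℝ)*ζ - v.2.1 = -((v.2.1:ℝ) - ζ * v.1) by ring, abs_neg] at hb
    set y := |(v.2.1:ℝ) - ζ * v.1| with hy
    have hy0 : 0 < y := by
      by_contra hneg
      push Not at hneg
      nlinarith
    set f := (2:ℝ)^i with hf
    set g := (2:ℝ)^l with hg
    have hf0 : 0 < f := by rw [hf]; positivity
    have hg0 : 0 < g := by rw [hg]; positivity
    have h3 : δ ≤ 4 * f^2 * y := hb.trans (mul_le_mul_of_nonneg_right h1.le hy0.le)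
    have h4 : δ * g^3 ≤ δ * f := by
      calc δ * g^3 ≤ (4 * f^2 * y) * g^3 := by gcongr
        _ = 4 * (f * g^3 * y) * f := by ring
        _ ≤ 4 * κ * f := by gcongr
        _ ≤ δ * f := by gcongr
    exact le_of_mul_le_mul_left h4 hδ
  have stP : ∀ (i l : ℕ) (v : ℤ × ℤ × ℤ), Prim v → 0 < v.1 → ((2:ℝ)^i)^2 ≤ (v.1:ℝ) →
      (v.1:ℝ) < 4 * ((2:ℝ)^i)^2 → κ < 8 * (2:ℝ)^i * ((2:ℝ)^l)^3 * |(v.2.1:ℝ) - ζ * v.1| →
      (2:ℝ)^i * ((2:ℝ)^l)^3 * |(v.2.1:ℝ) - ζ * v.1| ≤ κ →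
      ∃ n, thP2 κ (2^i) v ∈ Thr n ∧ (2:ℝ)^l/((2:ℝ)^i)^3 ≤ 65536 * rho n := by
    intro i l v hv hv0 h1 h2 h3 h4
    have h5 := hgf i l v hv0 h2 h4
    have hf1 : (1:ℝ) ≤ (2:ℝ)^i := one_le_pow₀ (by norm_num)
    have hg1 : (1:ℝ) ≤ (2:ℝ)^l := one_le_pow₀ (by norm_num)
    have h6 : (2:ℝ)^l/((2:ℝ)^i)^3 ≤ 1 := by
      rw [div_le_one (by positivity)]
      calc (2:ℝ)^l = ((2:ℝ)^l)^1 := (pow_one _).symm
        _ ≤ ((2:ℝ)^l)^3 := pow_le_pow_right₀ hg1 (by norm_num)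
        _ ≤ (2:ℝ)^i := h5
        _ = ((2:ℝ)^i)^1 := (pow_one _).symm
        _ ≤ ((2:ℝ)^i)^3 := pow_le_pow_right₀ hf1 (by norm_num)
    obtain ⟨n, hn1, hn2⟩ := exists_stage ((2:ℝ)^l/((2:ℝ)^i)^3) (by positivity) h6
    exact ⟨n, Or.inl ⟨i, l, v, ⟨hv, hv0, h1, h2, h3, h4, hn1, hn2⟩, rfl⟩, hn2⟩
  have stD : ∀ (i j : ℕ) (w : ℤ × ℤ × ℤ), Prim w → 0 < w.1 → ((2:ℝ)^i)^2 ≤ (w.1:ℝ) →
      (w.1:ℝ) < 4 * ((2:ℝ)^i)^2 → ((2:ℝ)^j)^2 ≤ max (w.1:ℝ) |(w.2.1:ℝ)| →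
      max (w.1:ℝ) |(w.2.1:ℝ)| < 4 * ((2:ℝ)^j)^2 →
      ∃ n, thD2 ζ κ3 w ∈ Thr n ∧ 1/(1024 * ((2:ℝ)^i)^3 * ((2:ℝ)^j)^3) ≤ 65536 * rho n := by
    intro i j w hw hw0 h1 h2 h3 h4
    have hf1 : (1:ℝ) ≤ (2:ℝ)^i := one_le_pow₀ (by norm_num)
    have hg1 : (1:ℝ) ≤ (2:ℝ)^j := one_le_pow₀ (by norm_num)
    have hij : i ≤ j := by
      have h5 : ((2:ℝ)^i)^2 < 4 * ((2:ℝ)^j)^2 := by
        have := le_max_left (w.1:ℝ) |(w.2.1:ℝ)|
        linarith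
      have h6 : (2:ℝ)^i < 2 * (2:ℝ)^j := by
        by_contra hge
        push Not at hge
        have h7 : 0 ≤ 2 * (2:ℝ)^j := by positivity
        nlinarith
      have h7 : (2:ℝ)^i < (2:ℝ)^(j+1) := by rw [pow_succ]; linarith
      rw [pow_lt_pow_iff_right₀ (by norm_num)] at h7
      omega
    obtain ⟨d, rfl⟩ := Nat.exists_eq_add_of_le hij
    have h6 : 1/(1024 * ((2:ℝ)^i)^3 * ((2:ℝ)^(i+d))^3) ≤ 1 := by
      rw [div_le_one (by positivity)]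
      have h7 : 1 ≤ ((2:ℝ)^i)^3 := one_le_pow₀ hf1
      have h8 : 1 ≤ ((2:ℝ)^(i+d))^3 := one_le_pow₀ hg1
      nlinarith
    obtain ⟨n, hn1, hn2⟩ := exists_stage (1/(1024 * ((2:ℝ)^i)^3 * ((2:ℝ)^(i+d))^3))
      (by positivity) h6
    exact ⟨n, Or.inr ⟨i, d, w, ⟨hw, hw0, h1, h2, h3, h4, hn1, hn2⟩, rfl⟩, hn2⟩
  have hfin : ∀ (n : ℕ) (x : ℝ),
      (∀ m < n, ∀ t ∈ Thr m, ¬ (|x - t.1| + rho n ≤ t.2)) →
      Small (rho n) {t | t ∈ Thr n ∧ |t.1 - x| < t.2 + rho n} η := by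
    intro n x hno
    have hρ := rho_pos n
    set ρ := rho n with hρdef
    have HD : ∀ (i j : ℕ) (w : ℤ × ℤ × ℤ), Prim w → 0 < w.1 → ((2:ℝ)^i)^2 ≤ (w.1:ℝ) →
        (w.1:ℝ) < 4 * ((2:ℝ)^i)^2 → ((2:ℝ)^j)^2 ≤ max (w.1:ℝ) |(w.2.1:ℝ)| →
        max (w.1:ℝ) |(w.2.1:ℝ)| < 4 * ((2:ℝ)^j)^2 →
        65536 * ρ < 1/(1024 * ((2:ℝ)^i)^3 * ((2:ℝ)^j)^3) →
        ¬ (|x - (thD2 ζ κ3 w).1| + ρ ≤ (thD2 ζ κ3 w).2) := by
      intro i j w h1 h2 h3 h4 h5 h6 hlt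
      obtain ⟨m, hm1, hm2⟩ := stD i j w h1 h2 h3 h4 h5 h6
      exact hno m (stage_lt hm2 hlt) _ hm1
    have HP : ∀ (i l : ℕ) (v : ℤ × ℤ × ℤ), Prim v → 0 < v.1 → ((2:ℝ)^i)^2 ≤ (v.1:ℝ) →
        (v.1:ℝ) < 4 * ((2:ℝ)^i)^2 → κ < 8 * (2:ℝ)^i * ((2:ℝ)^l)^3 * |(v.2.1:ℝ) - ζ * v.1| →
        (2:ℝ)^i * ((2:ℝ)^l)^3 * |(v.2.1:ℝ) - ζ * v.1| ≤ κ →
        65536 * ρ < (2:ℝ)^l/((2:ℝ)^i)^3 →
        ¬ (|x - (thP2 κ (2^i) v).1| + ρ ≤ (thP2 κ (2^i) v).2) := by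
      intro i l v h1 h2 h3 h4 h5 h6 hlt
      obtain ⟨m, hm1, hm2⟩ := stP i l v h1 h2 h3 h4 h5 h6
      exact hno m (stage_lt hm2 hlt) _ hm1
    obtain ⟨I, hI⟩ := pow_unbounded_of_one_lt (1/ρ) (show (1:ℝ) < 2 by norm_num)
    have hIρ : 1 < 2^I * ρ := by rwa [div_lt_iff₀ hρ] at hI
    have SP : Small ρ {p | ∃ i ∈ Finset.range I, ∃ l ∈ Finset.range I,
        ρ < (2:ℝ)^l/((2:ℝ)^i)^3 ∧ (2:ℝ)^l/((2:ℝ)^i)^3 ≤ 65536 * ρ ∧ p ∈ thP2 κ (2^i) ''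
        {v | okP2 ζ ρ κ (2^i) (2^l) v ∧ |(thP2 κ (2^i) v).1 - x| < (thP2 κ (2^i) v).2 + ρ}}
        (15 * ((N^5 : ℕ) * W (65536 * κ))) := by
      refine class_sum hρ I (N^5) (65536 * κ) (by positivity)
        (fun i l => (2:ℝ)^l/((2:ℝ)^i)^3) ?_ (fun i l => thP2 κ (2^i) ''
        {v | okP2 ζ ρ κ (2^i) (2^l) v ∧ |(thP2 κ (2^i) v).1 - x| < (thP2 κ (2^i) v).2 + ρ}) ?_
      · intro i l
        have e2 : (2:ℝ)^(i+1) = 2 * (2:ℝ)^i := by ring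
        rw [e2, mul_pow]
        refine le_of_eq ?_
        field_simp
        norm_num
      · intro i l _ _
        have hf1 : (1:ℝ) ≤ (2:ℝ)^i := one_le_pow₀ (by norm_num)
        have hg1 : (1:ℝ) ≤ (2:ℝ)^l := one_le_pow₀ (by norm_num)
        refine small_of_card hρ _ _ (N^5) _ (fun T hT => ?_) ?_ ?_ (by positivity)
        · exact cardP2 ζ ρ x κ κ3 (2^i) (2^l) δ N hρ hf1 hg1 hδ hbad hN47 hNδ hκ hκ3 HD T hT
        · intro v hv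
          exact (factsP2 hρ hf1 hg1 hκ0 hv.1).2.2.1
        · intro v hv
          exact (factsP2 hρ hf1 hg1 hκ0 hv.1).2.2.2
    have SD : Small ρ {p | ∃ i ∈ Finset.range I, ∃ d ∈ Finset.range I,
        ρ < 1/(1024 * ((2:ℝ)^i)^3 * ((2:ℝ)^(i+d))^3) ∧
        1/(1024 * ((2:ℝ)^i)^3 * ((2:ℝ)^(i+d))^3) ≤ 65536 * ρ ∧ p ∈ thD2 ζ κ3 ''
        {w | okD2 ρ (2^i) (2^(i+d)) w ∧ |(thD2 ζ κ3 w).1 - x| < (thD2 ζ κ3 w).2 + ρ}}
        (15 * ((N^9 : ℕ) * W (2^26 * κ3))) := by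
      refine class_sum hρ I (N^9) (2^26 * κ3) (by positivity)
        (fun i d => 1/(1024 * ((2:ℝ)^i)^3 * ((2:ℝ)^(i+d))^3)) ?_ (fun i d => thD2 ζ κ3 ''
        {w | okD2 ρ (2^i) (2^(i+d)) w ∧ |(thD2 ζ κ3 w).1 - x| < (thD2 ζ κ3 w).2 + ρ}) ?_
      · intro i d
        have e1 : (2:ℝ)^(i+1+d) = 2 * (2:ℝ)^(i+d) := by ring
        have e2 : (2:ℝ)^(i+1) = 2 * (2:ℝ)^i := by ring
        rw [e1, e2, mul_pow, mul_pow, div_div]
        refine one_div_le_one_div_of_le (by positivity) ?_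
        have : 0 < ((2:ℝ)^i)^3 * ((2:ℝ)^(i+d))^3 := by positivity
        nlinarith
      · intro i d _ _
        have hf1 : (1:ℝ) ≤ (2:ℝ)^i := one_le_pow₀ (by norm_num)
        have hfg : (2:ℝ)^i ≤ (2:ℝ)^(i+d) := pow_le_pow_right₀ (by norm_num) (by omega)
        refine small_of_card hρ _ _ (N^9) _ (fun T hT => ?_) ?_ ?_ (by positivity)
        · exact cardD2 ζ ρ x κ κ3 (2^i) (2^(i+d)) δ N hρ hf1 hfg hδ hbad hN47 hκ hκ3 HP T hT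
        · intro v hv
          exact (factsD2 hρ hf1 hfg hκ30 hv.1).2.2.1
        · intro v hv
          refine (factsD2 hρ hf1 hfg hκ30 hv.1).2.2.2.trans (le_of_eq ?_)
          rw [pow_add]
          field_simp
    have e1 : W (65536 * κ) = 4096/(N:ℝ)^9 := by
      rw [W_scale hκ0.le]
      have : κ = (1/(N:ℝ)^3)^4 := by rw [hκ]; field_simp
      rw [this, W_pow4 (by positivity)]
      field_simp
    have e2 : W (2^26 * κ3) ≤ 2^21/(N:ℝ)^18 := by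
      have h1 : W (2^26 * κ3) ≤ W ((2^7/(N:ℝ)^6)^4) := by
        refine W_mono (by positivity) ?_
        rw [hκ3, div_pow, ← pow_mul, ← pow_mul, mul_one_div]
        gcongr <;> norm_num
      refine h1.trans (le_of_eq ?_)
      rw [W_pow4 (by positivity)]
      field_simp
    have b1 : 15 * ((N^5 : ℕ) * W (65536 * κ)) ≤ η/2 := by
      rw [e1]
      push_cast
      have : 15 * ((N:ℝ)^5 * (4096/(N:ℝ)^9)) = 61440/(N:ℝ)^4 := by field_simp; norm_num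
      rw [this, div_le_div_iff₀ (by positivity) (by positivity)]
      calc (61440:ℝ) * 2 ≤ 2^40 := by norm_num
        _ ≤ (N:ℝ) * η := hNη
        _ = (N:ℝ)^1 * η := by rw [pow_one]
        _ ≤ (N:ℝ)^4 * η := by
          have := pow_le_pow_right₀ hN1 (show 1 ≤ 4 by norm_num)
          gcongr
        _ = η * (N:ℝ)^4 := by ring
    have b2 : 15 * ((N^9 : ℕ) * W (2^26 * κ3)) ≤ η/2 := by
      have h1 : 15 * (((N^9 : ℕ):ℝ) * W (2^26 * κ3)) ≤ 15 * (((N^9 : ℕ):ℝ) * (2^21/(N:ℝ)^18)) := by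
        gcongr
      refine h1.trans ?_
      push_cast
      have : 15 * ((N:ℝ)^9 * (2^21/(N:ℝ)^18)) = 15 * 2^21/(N:ℝ)^9 := by field_simp
      rw [this, div_le_div_iff₀ (by positivity) (by positivity)]
      calc (15:ℝ) * 2^21 * 2 ≤ 2^40 := by norm_num
        _ ≤ (N:ℝ) * η := hNη
        _ = (N:ℝ)^1 * η := by rw [pow_one]
        _ ≤ (N:ℝ)^9 * η := by
          have := pow_le_pow_right₀ hN1 (show 1 ≤ 9 by norm_num)
          gcongr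
        _ = η * (N:ℝ)^9 := by ring
    refine (SP.union hρ SD).mono ?_ ((add_le_add b1 b2).trans (add_halves η).le)
    rintro t ⟨ht, hmeet⟩
    rcases ht with ⟨i, l, v, hv, rfl⟩ | ⟨i, d, w, hw, rfl⟩
    · left
      obtain ⟨g1, g2, g3, g4, g5, g6, g7, g8⟩ := id hv
      have hf1 : (1:ℝ) ≤ (2:ℝ)^i := one_le_pow₀ (by norm_num)
      have hg1 : (1:ℝ) ≤ (2:ℝ)^l := one_le_pow₀ (by norm_num)
      have h1 := hgf i l v g2 g4 g6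
      have h2 : (2:ℝ)^l ≤ (2:ℝ)^i := by
        refine le_trans ?_ h1
        calc (2:ℝ)^l = ((2:ℝ)^l)^1 := (pow_one _).symm
          _ ≤ ((2:ℝ)^l)^3 := pow_le_pow_right₀ hg1 (by norm_num)
      have hli : l ≤ i := by
        rwa [pow_le_pow_iff_right₀ (by norm_num)] at h2
      have hiI : i < I := by
        have h3 : ρ * ((2:ℝ)^i)^3 < (2:ℝ)^l := by
          rwa [lt_div_iff₀ (by positivity)] at g7
        have h4 : ρ * (2:ℝ)^i < 1 := by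
          have h5 : (ρ * (2:ℝ)^i) * ((2:ℝ)^i)^2 < 1 * ((2:ℝ)^i)^2 := by
            calc (ρ * (2:ℝ)^i) * ((2:ℝ)^i)^2 = ρ * ((2:ℝ)^i)^3 := by ring
              _ < (2:ℝ)^l := h3
              _ ≤ (2:ℝ)^i := h2
              _ = (2:ℝ)^i * 1 := (mul_one _).symm
              _ ≤ (2:ℝ)^i * (2:ℝ)^i := by gcongr
              _ = 1 * ((2:ℝ)^i)^2 := by ring
          exact lt_of_mul_lt_mul_right h5 (by positivity)
        have h5 : (2:ℝ)^i < (2:ℝ)^I := by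
          have h6 : ρ * (2:ℝ)^i < ρ * (2:ℝ)^I := by linarith
          exact lt_of_mul_lt_mul_left h6 hρ.le
        rwa [pow_lt_pow_iff_right₀ (by norm_num)] at h5
      exact ⟨i, Finset.mem_range.2 hiI, l, Finset.mem_range.2 (by omega), g7, g8, v,
        ⟨hv, hmeet⟩, rfl⟩
    · right
      obtain ⟨g1, g2, g3, g4, g5, g6, g7, g8⟩ := id hw
      have hf1 : (1:ℝ) ≤ (2:ℝ)^i := one_le_pow₀ (by norm_num)
      have hg1 : (1:ℝ) ≤ (2:ℝ)^(i+d) := one_le_pow₀ (by norm_num)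
      have h3 : ρ * (1024 * ((2:ℝ)^i)^3 * ((2:ℝ)^(i+d))^3) < 1 := by
        rwa [lt_div_iff₀ (by positivity)] at g7
      have h4 : ρ * (2:ℝ)^(i+d) < 1 := by
        refine lt_of_le_of_lt ?_ h3
        have h5 : 1 ≤ ((2:ℝ)^i)^3 := one_le_pow₀ hf1
        have h6 : (2:ℝ)^(i+d) ≤ ((2:ℝ)^(i+d))^3 := by
          calc (2:ℝ)^(i+d) = ((2:ℝ)^(i+d))^1 := (pow_one _).symm
            _ ≤ ((2:ℝ)^(i+d))^3 := pow_le_pow_right₀ hg1 (by norm_num)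
        calc ρ * (2:ℝ)^(i+d) = ρ * (1 * 1 * (2:ℝ)^(i+d)) := by ring
          _ ≤ ρ * (1024 * ((2:ℝ)^i)^3 * ((2:ℝ)^(i+d))^3) := by gcongr; norm_num
      have h5 : (2:ℝ)^(i+d) < (2:ℝ)^I := by
        have h6 : ρ * (2:ℝ)^(i+d) < ρ * (2:ℝ)^I := by linarith
        exact lt_of_mul_lt_mul_left h6 hρ.le
      rw [pow_lt_pow_iff_right₀ (by norm_num)] at h5
      exact ⟨i, Finset.mem_range.2 (by omega), d, Finset.mem_range.2 (by omega), g7, g8, w,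
        ⟨hw, hmeet⟩, rfl⟩
  refine ⟨Thr, κ, hκ0, ?_, hfin, ?_⟩
  · have hs1 : 65536 * κ ≤ η := by
      rw [hκ, mul_one_div, div_le_iff₀ (by positivity)]
      calc (65536:ℝ) ≤ 2^40 := by norm_num
        _ ≤ (N:ℝ) * η := hNη
        _ = (N:ℝ)^1 * η := by rw [pow_one]
        _ ≤ (N:ℝ)^12 * η := by
          have := pow_le_pow_right₀ hN1 (show 1 ≤ 12 by norm_num)
          gcongr
        _ = η * (N:ℝ)^12 := by ring
    have hs2 : 2^26 * κ3 ≤ η := by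
      rw [hκ3, mul_one_div, div_le_iff₀ (by positivity)]
      calc (2:ℝ)^26 ≤ 2^40 := by norm_num
        _ ≤ (N:ℝ) * η := hNη
        _ = (N:ℝ)^1 * η := by rw [pow_one]
        _ ≤ (N:ℝ)^24 * η := by
          have := pow_le_pow_right₀ hN1 (show 1 ≤ 24 by norm_num)
          gcongr
        _ = η * (N:ℝ)^24 := by ring
    rintro n t (⟨i, l, v, hv, rfl⟩ | ⟨i, d, w, hw, rfl⟩)
    · have hf1 : (1:ℝ) ≤ (2:ℝ)^i := one_le_pow₀ (by norm_num)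
      have hg1 : (1:ℝ) ≤ (2:ℝ)^l := one_le_pow₀ (by norm_num)
      obtain ⟨-, -, f3, f4⟩ := factsP2 (rho_pos n) hf1 hg1 hκ0 hv
      refine ⟨f3, ?_⟩
      rw [div_le_iff₀ (rho_pos n)] at f4
      refine f4.trans (mul_le_mul_of_nonneg_right ?_ (rho_pos n).le)
      refine le_trans ?_ hs1
      exact div_le_self (by positivity) hg1
    · have hf1 : (1:ℝ) ≤ (2:ℝ)^i := one_le_pow₀ (by norm_num)
      have hfg : (2:ℝ)^i ≤ (2:ℝ)^(i+d) := pow_le_pow_right₀ (by norm_num) (by omega)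
      obtain ⟨-, -, f3, f4⟩ := factsD2 (ζ := ζ) (rho_pos n) hf1 hfg hκ30 hw
      refine ⟨f3, ?_⟩
      rw [div_le_iff₀ (rho_pos n)] at f4
      refine f4.trans (mul_le_mul_of_nonneg_right ?_ (rho_pos n).le)
      refine le_trans ?_ hs2
      have h0 : (0:ℝ) < (2:ℝ)^(i+d) := by positivity
      have h1 : (2:ℝ)^i/(2:ℝ)^(i+d) ≤ 1 := (div_le_one h0).2 hfg
      calc 2^26 * κ3 * ((2:ℝ)^i/(2:ℝ)^(i+d)) ≤ 2^26 * κ3 * 1 := by gcongr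
        _ = 2^26 * κ3 := mul_one _
  intro ξ hξ v hv hv0
  have h1 : (1:ℝ) ≤ (v.1:ℝ) := by exact_mod_cast hv0
  obtain ⟨i, hi1, hi2⟩ := exists_pow4 _ h1
  have hq : (0:ℝ) < (v.1:ℝ) := by linarith
  have hb := hbad v.1 v.2.1 (by omega)
  rw [abs_of_pos hq, show (v.1:ℝ)*ζ - v.2.1 = -((v.2.1:ℝ) - ζ * v.1) by ring, abs_neg] at hb
  set y := |(v.2.1:ℝ) - ζ * v.1| with hy
  have hy0 : 0 < y := by
    by_contra hneg
    push Not at hneg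
    nlinarith
  obtain ⟨f, hf⟩ : ∃ f : ℝ, f = (2:ℝ)^i := ⟨_, rfl⟩
  have hf0 : 0 < f := by rw [hf]; positivity
  have hfs : f ≤ Real.sqrt (v.1:ℝ) := by
    rw [← hf] at hi1
    exact Real.le_sqrt_of_sq_le hi1
  have key : κ ≤ f * max y |(v.1:ℝ) * ξ - v.2.2| := by
    rcases lt_or_ge κ (f * y) with h | h
    · refine h.le.trans ?_
      gcongr
      exact le_max_left _ _
    · have h1κ : 1 ≤ κ/(f*y) := by
        rw [le_div_iff₀ (by positivity)]; linarith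
      obtain ⟨l, hl1, hl2⟩ := exists_pow8 _ h1κ
      obtain ⟨g, hg⟩ : ∃ g : ℝ, g = (2:ℝ)^l := ⟨_, rfl⟩
      rw [← hg] at hl1 hl2
      rw [le_div_iff₀ (by positivity)] at hl1
      rw [div_lt_iff₀ (by positivity)] at hl2
      obtain ⟨n, hn, _⟩ := stP i l v hv hv0 hi1 hi2
        (by rw [← hy, ← hf, ← hg]; linarith) (by rw [← hy, ← hf, ← hg]; linarith)
      have h3 := hξ n _ hn
      simp only [thP2] at h3
      rw [← hf, div_le_iff₀ (by positivity)] at h3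
      have h4 : κ ≤ f * |(v.1:ℝ) * ξ - v.2.2| := by
        have e : (v.1:ℝ) * ξ - v.2.2 = (ξ - (v.2.2:ℝ)/v.1) * v.1 := by field_simp
        rw [e, abs_mul, abs_of_pos hq]
        linarith
      refine h4.trans ?_
      gcongr
      exact le_max_right _ _
  refine key.trans ?_
  have : 0 ≤ max y |(v.1:ℝ) * ξ - v.2.2| := hy0.le.trans (le_max_left _ _)
  gcongr

end Pool.Agent.Y754.GD
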