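import Mathlib

set_option autoImplicit false

/-!
# A lower bound for the Hausdorff dimension of a separated Cantor set

Adapted from `Pool.Agent.Helper193.DimLower` (starting library).
-/

namespace Pool.Agent.Y754.GD

/-- Points indexed by sequences of `K` digits which are separated by `δ q ^ n` when the sequences
first differ at place `n` form a set of dimension at least `s`, if `1 / K ≤ q ^ s`. -/
theorem dimH_range_ge (K : ℕ) (hK : 2 ≤ K) (pt : (ℕ → Fin K) → ℝ) (q δ s : ℝ) (hq0 : 0 < q)
    (hδ : 0 < δ) (hs : 0 < s) (hqs : (K:ℝ)⁻¹ ≤ q ^ s)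
    (hsep : ∀ (t t' : ℕ → Fin K) (n : ℕ), (∀ i < n, t i = t' i) → t n ≠ t' n →
      q ^ n * δ ≤ |pt t - pt t'|) :
    ENNReal.ofReal s ≤ dimH (Set.range pt) := by
  classical
  have hMR : (2 : ℝ) ≤ K := by exact_mod_cast hK
  have hsepn : ∀ t t' : ℕ → Fin K, t ≠ t' → ∃ n, (∀ i < n, t i = t' i) ∧
      q ^ n * δ ≤ |pt t - pt t'| := by
    intro t t' htt
    have hex : ∃ n, t n ≠ t' n := by
      by_contra hcon
      push Not at hcon
      exact htt (funext hcon)
    have hmin : ∀ i < Nat.find hex, t i = t' i := fun i hi => by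
      have := Nat.find_min hex hi
      push Not at this
      exact this
    exact ⟨Nat.find hex, hmin, hsep t t' _ hmin (Nat.find_spec hex)⟩
  have hinj : Function.Injective pt := by
    intro t t' h
    by_contra hne'
    obtain ⟨n, -, hn⟩ := hsepn t t' hne'
    rw [h, sub_self, abs_zero] at hn
    have : 0 < q ^ n * δ := by positivity
    linarith
  -- the map
  let h : ℝ → ℝ := fun x => if hx : ∃ t, pt t = x then Real.ofDigits hx.choose else 0
  have hh : ∀ t, h (pt t) = Real.ofDigits t := by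
    intro t
    have hex : ∃ t', pt t' = pt t := ⟨t, rfl⟩
    simp only [h, dif_pos hex]
    rw [hinj hex.choose_spec]
  have hest : ∀ t t', |h (pt t) - h (pt t')| ≤ (1 / δ) ^ s * |pt t - pt t'| ^ s := by
    intro t t'
    by_cases htt : t = t'
    · subst htt
      simp only [sub_self, abs_zero]
      positivity
    · obtain ⟨n, hn, hn'⟩ := hsepn t t' htt
      rw [hh, hh]
      calc |Real.ofDigits t - Real.ofDigits t'| ≤ ((K : ℝ) ^ n)⁻¹ :=
            Real.abs_ofDigits_sub_ofDigits_le hn
        _ = ((K:ℝ)⁻¹) ^ n := by rw [inv_pow]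
        _ ≤ (q ^ s) ^ n := pow_le_pow_left₀ (by positivity) hqs n
        _ = (q ^ n) ^ s := by
            rw [← Real.rpow_natCast, ← Real.rpow_mul hq0.le, mul_comm, Real.rpow_mul hq0.le,
              Real.rpow_natCast]
        _ ≤ ((1 / δ) * |pt t - pt t'|) ^ s := by
            apply Real.rpow_le_rpow (by positivity) _ hs.le
            rw [one_div, ← div_eq_inv_mul, le_div_iff₀ hδ]
            exact hn'
        _ = _ := Real.mul_rpow (by positivity) (abs_nonneg _)
  set C : NNReal := Real.toNNReal ((1 / δ) ^ s) with hC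
  set r : NNReal := Real.toNNReal s with hr
  have hrpos : 0 < r := Real.toNNReal_pos.2 hs
  have hrs : (r : ℝ) = s := Real.coe_toNNReal _ hs.le
  have hCs : (C : ℝ) = (1 / δ) ^ s := Real.coe_toNNReal _ (by positivity)
  have hholder : HolderOnWith C r h (Set.range pt) := by
    rintro _ ⟨t, rfl⟩ _ ⟨t', rfl⟩
    rw [edist_dist, edist_dist, Real.dist_eq, Real.dist_eq]
    rw [ENNReal.ofReal_rpow_of_nonneg (abs_nonneg _) (by positivity)]
    rw [← ENNReal.ofReal_coe_nnreal, ← ENNReal.ofReal_mul (by positivity), hCs, hrs]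
    exact ENNReal.ofReal_le_ofReal (hest t t')
  have himg : Set.Icc (0 : ℝ) 1 ⊆ h '' (Set.range pt) := by
    intro y hy
    obtain ⟨t, -, ht⟩ := Real.ofDigits_SurjOn (b := K) (by omega) hy
    exact ⟨pt t, ⟨t, rfl⟩, by rw [hh, ht]⟩
  have hdim1 : dimH (Set.Icc (0 : ℝ) 1) = 1 := by
    have := Real.dimH_of_nonempty_interior (E := ℝ) (s := Set.Icc (0 : ℝ) 1)
      (by rw [interior_Icc]; exact ⟨1 / 2, by norm_num, by norm_num⟩)
    rw [this]
    simp
  have h2 : (1 : ENNReal) ≤ dimH (Set.range pt) / r := by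
    calc (1 : ENNReal) = dimH (Set.Icc (0 : ℝ) 1) := hdim1.symm
      _ ≤ dimH (h '' (Set.range pt)) := dimH_mono himg
      _ ≤ _ := hholder.dimH_image_le hrpos
  have h3 : (r : ENNReal) ≤ dimH (Set.range pt) := by
    rw [ENNReal.le_div_iff_mul_le (Or.inl (by exact_mod_cast hrpos.ne')) (Or.inl (by simp))] at h2
    simpa using h2
  exact h3

end Pool.Agent.Y754.GD
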