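import Pool.Agent.H238R3.Game
import Pool.Agent.Y754.GD.Dim

set_option autoImplicit false

/-!
# The potential game: the set of the winning points has almost full Hausdorff dimension

`Pool.Agent.H238R3.Game` (starting library) finds one point which avoids all threats.  Here the
same potential is followed along the whole tree: among the `65536 ^ L` descendants of an interval
at least one half are again admissible, when the weight of the new threats is small.
-/

namespace Pool.Agent.Y754.GD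

open Pool.Agent.H238R3.Game

/-- total weight of the pending threats -/
noncomputable def Pot (n : ℕ) (F : Finset (ℝ × ℝ)) : ℝ := ∑ t ∈ F, W (t.2/rho n)

/-- admissible intervals (centre `x`, half length `rho n`) with their pending threats `F` -/
structure Val (Thr : ℕ → Set (ℝ × ℝ)) (n : ℕ) (x : ℝ) (F : Finset (ℝ × ℝ)) : Prop where
  pos : ∀ t ∈ F, 0 < t.2
  pot : Pot n F ≤ 1/4096
  all : ∀ m ≤ n, ∀ t ∈ Thr m, |t.1 - x| < t.2 + rho n → t ∈ F

lemma Pot_nonneg {n : ℕ} {F : Finset (ℝ × ℝ)} (h : ∀ t ∈ F, 0 < t.2) : 0 ≤ Pot n F :=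
  Finset.sum_nonneg (fun t ht => W_nonneg (div_nonneg (h t ht).le (rho_pos n).le))

/-- the total weight over all children -/
lemma sum_children (x ρ : ℝ) (hρ : 0 < ρ) (F : Finset (ℝ × ℝ)) (hF : ∀ t ∈ F, 0 < t.2)
    (hΦ : ∑ t ∈ F, W (t.2/ρ) ≤ 1/4096) (N : ℕ) (hN : N = 65536) :
    ∑ i ∈ Finset.range N, ∑ t ∈ F with |t.1 - (x + (2*(i:ℝ) + 1 - 65536) * (ρ/65536))| <
      t.2 + ρ/65536, W (t.2/(ρ/65536)) ≤ 8192 * ∑ t ∈ F, W (t.2/ρ) := by
  classical
  have hNr : (N:ℝ) = 65536 := by rw [hN]; norm_num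
  set y : ℕ → ℝ := fun i => x + (2*(i:ℝ) + 1 - 65536) * (ρ/65536) with hy
  have hswap : ∑ i ∈ Finset.range N,
      ∑ t ∈ F with |t.1 - y i| < t.2 + ρ/65536, W (t.2/(ρ/65536)) =
      ∑ t ∈ F, ∑ i ∈ Finset.range N with |t.1 - y i| < t.2 + ρ/65536,
        W (t.2/(ρ/65536)) := by
    simp_rw [Finset.sum_filter]
    exact Finset.sum_comm
  have hbound : ∑ t ∈ F, ∑ i ∈ Finset.range N with |t.1 - y i| < t.2 + ρ/65536,
        W (t.2/(ρ/65536)) ≤ ∑ t ∈ F, 8192 * W (t.2/ρ) := by
    refine Finset.sum_le_sum (fun t ht => ?_)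
    have htpos := hF t ht
    have hrel : 0 ≤ t.2/ρ := by positivity
    have hWt : W (t.2/ρ) ≤ 1/4096 := by
      refine le_trans ?_ hΦ
      exact Finset.single_le_sum (f := fun t => W (t.2/ρ))
        (fun s hs => W_nonneg (div_nonneg (hF s hs).le hρ.le)) ht
    have htsmall : t.2/ρ ≤ 1/65536 := W_small hrel hWt
    have ht2 : t.2 ≤ ρ/65536 := by
      rw [div_le_iff₀ hρ] at htsmall
      linarith
    rw [Finset.sum_const, nsmul_eq_mul]
    have hW' : W (t.2/(ρ/65536)) = 4096 * W (t.2/ρ) := by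
      rw [← W_scale hrel]; congr 1; field_simp
    rw [hW']
    have hcard : ((Finset.range N).filter (fun i => |t.1 - y i| < t.2 + ρ/65536)).card ≤ 2 := by
      set u : ℝ := ((t.1 - x)*65536/ρ + 65536 - 1)/2 with hu
      have hsub : ((Finset.range N).filter (fun i => |t.1 - y i| < t.2 + ρ/65536)).image
          (fun i : ℕ => (i:ℤ)) ⊆ {⌊u⌋, ⌊u⌋+1} := by
        intro k hk
        rw [Finset.mem_image] at hk
        obtain ⟨i, hi, rfl⟩ := hk
        rw [Finset.mem_filter] at hi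
        have h1 : |t.1 - y i| < 2 * (ρ/65536) := by linarith [hi.2]
        have h2 : t.1 - y i = 2 * (ρ/65536) * (u - i) := by
          simp only [hy, hu]; field_simp; ring
        rw [h2, abs_mul, abs_of_pos (by positivity : (0:ℝ) < 2 * (ρ/65536))] at h1
        have h3 : |u - i| < 1 := by
          by_contra hge
          push Not at hge
          nlinarith [show (0:ℝ) < 2 * (ρ/65536) by positivity]
        rw [abs_lt] at h3
        have h4 : (⌊u⌋:ℝ) ≤ u := Int.floor_le u
        have h5 : u < ⌊u⌋ + 1 := Int.lt_floor_add_one u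
        have h6 : (i:ℤ) < ⌊u⌋ + 2 := by
          have : ((i:ℤ):ℝ) < ((⌊u⌋+2 : ℤ):ℝ) := by push_cast; linarith [h3.1]
          exact_mod_cast this
        have h7 : ⌊u⌋ - 1 < (i:ℤ) := by
          have : (((⌊u⌋ - 1 : ℤ)):ℝ) < ((i:ℤ):ℝ) := by push_cast; linarith [h3.2]
          exact_mod_cast this
        simp only [Finset.mem_insert, Finset.mem_singleton]
        omega
      have hc := Finset.card_le_card hsub
      rw [Finset.card_image_of_injective _ (fun a b hab => by exact_mod_cast hab)] at hc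
      exact hc.trans (Finset.card_le_two)
    have hcard' : ((((Finset.range N).filter
        (fun i => |t.1 - y i| < t.2 + ρ/65536)).card : ℕ) : ℝ) ≤ 2 := by exact_mod_cast hcard
    have := W_nonneg hrel
    nlinarith
  rw [Finset.mul_sum]
  calc _ = _ := hswap
    _ ≤ _ := hbound

section
variable (Thr : ℕ → Set (ℝ × ℝ)) (η : ℝ) (hη0 : 0 ≤ η) (hη : η ≤ 1/8192)
  (hfin : ∀ (n : ℕ) (x : ℝ), (∀ m < n, ∀ t ∈ Thr m, ¬ (|x - t.1| + rho n ≤ t.2)) →
    Small (rho n) {t | t ∈ Thr n ∧ |t.1 - x| < t.2 + rho n} η)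

include hη hfin hη0

/-- the children of an admissible interval -/
lemma step1 (N : ℕ) (hN : N = 65536) (n : ℕ) (x : ℝ) (F : Finset (ℝ × ℝ))
    (hV : Val Thr n x F) :
    ∃ (I : Finset ℕ) (G : ℕ → Finset (ℝ × ℝ)), I ⊆ Finset.range N ∧
      (∀ i ∈ I, Val Thr (n+1) (x + (2*(i:ℝ)+1-65536) * rho (n+1)) (G i)) ∧
      ∑ i ∈ I, Pot (n+1) (G i) ≤ 8192 * Pot n F + 65536 * η ∧
      (65536:ℝ) - I.card ≤ 2^26 * Pot n F := by
  classical
  have hNr : (N:ℝ) = 65536 := by rw [hN]; norm_num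
  obtain ⟨hF, hΦ, hall⟩ := hV
  have hρ := rho_pos n
  have hρ' := rho_pos (n+1)
  have hsum := sum_children x (rho n) hρ F hF hΦ N hN
  rw [← rho_succ] at hsum
  set y : ℕ → ℝ := fun i => x + (2*(i:ℝ)+1-65536) * rho (n+1) with hy
  set Q : ℕ → ℝ := fun i => ∑ t ∈ F with |t.1 - y i| < t.2 + rho (n+1), W (t.2/rho (n+1)) with hQ
  have hsum' : ∑ i ∈ Finset.range N, Q i ≤ 8192 * Pot n F := hsum
  have hQ0 : ∀ i, 0 ≤ Q i := fun i => Finset.sum_nonneg (fun t ht =>
    W_nonneg (div_nonneg (hF t (Finset.mem_filter.1 ht).1).le hρ'.le))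
  set I : Finset ℕ := (Finset.range N).filter (fun i => Q i ≤ 1/8192) with hI
  have hchild : ∀ i ∈ I, ∃ G : Finset (ℝ × ℝ), Val Thr (n+1) (y i) G ∧ Pot (n+1) G ≤ Q i + η := by
    intro i hi
    obtain ⟨hi1, hi2⟩ := Finset.mem_filter.1 hi
    have hi' : (i:ℝ) ≤ 65535 := by
      have := Finset.mem_range.1 hi1
      have h2 : (i:ℝ) + 1 ≤ (N:ℝ) := by exact_mod_cast this
      linarith
    have hi0 : (0:ℝ) ≤ (i:ℝ) := Nat.cast_nonneg i
    have hdist : |y i - x| ≤ rho n - rho (n+1) := by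
      have h1 : y i - x = (2*(i:ℝ)+1-65536) * rho (n+1) := by simp [hy]
      have h2 : rho n = 65536 * rho (n+1) := by rw [rho_succ]; ring
      rw [h1, h2, abs_le]
      constructor
      · nlinarith [mul_nonneg hi0 hρ'.le]
      · nlinarith
    have hno : ∀ m < n+1, ∀ t ∈ Thr m, ¬ (|y i - t.1| + rho (n+1) ≤ t.2) := by
      intro m hm t ht hcont
      have htF : t ∈ F := by
        refine hall m (by omega) t ht ?_
        have h1 : |t.1 - x| ≤ |y i - t.1| + |y i - x| := by
          have := abs_sub_le t.1 (y i) x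
          rw [abs_sub_comm t.1 (y i)] at this
          exact this
        linarith
      have hmem : t ∈ F.filter (fun t => |t.1 - y i| < t.2 + rho (n+1)) := by
        rw [Finset.mem_filter]
        refine ⟨htF, ?_⟩
        rw [abs_sub_comm]
        linarith
      have h2 : W (t.2/rho (n+1)) ≤ 1/8192 := by
        refine le_trans ?_ hi2
        refine Finset.single_le_sum (f := fun t => W (t.2/rho (n+1)))
          (fun s hs => W_nonneg (div_nonneg ?_ hρ'.le)) hmem
        exact (hF s (Finset.mem_filter.1 hs).1).le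
      have h3 : 1 ≤ t.2/rho (n+1) := by
        rw [le_div_iff₀ hρ']
        have := abs_nonneg (y i - t.1)
        linarith
      have h4 := W_mono (by norm_num) h3
      rw [W_one] at h4
      linarith
    obtain ⟨G, hG1, hG2, hG3⟩ := hfin (n+1) (y i) hno
    have hpot : Pot (n+1) (F.filter (fun t => |t.1 - y i| < t.2 + rho (n+1)) ∪ G) ≤ Q i + η := by
      have hle : ∑ t ∈ F.filter (fun t => |t.1 - y i| < t.2 + rho (n+1)) ∪ G, W (t.2/rho (n+1)) ≤
          ∑ t ∈ F.filter (fun t => |t.1 - y i| < t.2 + rho (n+1)), W (t.2/rho (n+1)) +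
          ∑ t ∈ G, W (t.2/rho (n+1)) := by
        rw [← Finset.sum_union_inter]
        have : 0 ≤ ∑ t ∈ F.filter (fun t => |t.1 - y i| < t.2 + rho (n+1)) ∩ G,
            W (t.2/rho (n+1)) := by
          refine Finset.sum_nonneg (fun t ht => ?_)
          exact W_nonneg (div_nonneg (hG2 t (Finset.mem_inter.1 ht).2).le (rho_pos _).le)
        linarith
      exact hle.trans (by linarith)
    refine ⟨F.filter (fun t => |t.1 - y i| < t.2 + rho (n+1)) ∪ G, ⟨?_, ?_, ?_⟩, hpot⟩
    · intro t ht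
      rcases Finset.mem_union.1 ht with h | h
      · exact hF t (Finset.mem_filter.1 h).1
      · exact hG2 t h
    · linarith
    · intro m hm t ht hmeet
      rw [Finset.mem_union]
      rcases Nat.lt_or_ge m (n+1) with h | h
      · left
        rw [Finset.mem_filter]
        refine ⟨hall m (by omega) t ht ?_, hmeet⟩
        have h1 : |t.1 - x| ≤ |t.1 - y i| + |y i - x| := abs_sub_le _ _ _
        linarith
      · right
        have hm' : m = n+1 := by omega
        subst hm'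
        exact hG1 t ⟨ht, hmeet⟩
  choose! G hG using hchild
  refine ⟨I, G, Finset.filter_subset _ _, fun i hi => (hG i hi).1, ?_, ?_⟩
  · calc ∑ i ∈ I, Pot (n+1) (G i) ≤ ∑ i ∈ I, (Q i + η) :=
          Finset.sum_le_sum (fun i hi => (hG i hi).2)
      _ = ∑ i ∈ I, Q i + I.card * η := by
          rw [Finset.sum_add_distrib, Finset.sum_const, nsmul_eq_mul]
      _ ≤ ∑ i ∈ Finset.range N, Q i + 65536 * η := by
          have h1 : ∑ i ∈ I, Q i ≤ ∑ i ∈ Finset.range N, Q i :=
            Finset.sum_le_sum_of_subset_of_nonneg (Finset.filter_subset _ _) (fun i _ _ => hQ0 i)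
          have h2 : (I.card : ℝ) ≤ 65536 := by
            have := Finset.card_le_card (Finset.filter_subset (fun i => Q i ≤ 1/8192)
              (Finset.range N))
            rw [Finset.card_range] at this
            rw [← hNr]
            exact_mod_cast this
          have h3 : (I.card : ℝ) * η ≤ 65536 * η := mul_le_mul_of_nonneg_right h2 hη0
          linarith
      _ ≤ 8192 * Pot n F + 65536 * η := by linarith
  · have h1 : ∑ i ∈ (Finset.range N).filter (fun i => ¬ Q i ≤ 1/8192), (1/8192 : ℝ) ≤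
        ∑ i ∈ Finset.range N, Q i := by
      calc ∑ i ∈ (Finset.range N).filter (fun i => ¬ Q i ≤ 1/8192), (1/8192 : ℝ) ≤
          ∑ i ∈ (Finset.range N).filter (fun i => ¬ Q i ≤ 1/8192), Q i := by
            refine Finset.sum_le_sum (fun i hi => ?_)
            have := (Finset.mem_filter.1 hi).2
            push Not at this
            exact this.le
        _ ≤ ∑ i ∈ Finset.range N, Q i :=
            Finset.sum_le_sum_of_subset_of_nonneg (Finset.filter_subset _ _) (fun i _ _ => hQ0 i)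
    rw [Finset.sum_const, nsmul_eq_mul] at h1
    have h2 : (I.card : ℝ) + ((Finset.range N).filter (fun i => ¬ Q i ≤ 1/8192)).card = 65536 := by
      have := Finset.card_filter_add_card_filter_not (s := Finset.range N) (fun i => Q i ≤ 1/8192)
      rw [Finset.card_range] at this
      rw [← hNr]
      exact_mod_cast this
    have h3 := h1.trans hsum'
    linarith

/-- the descendants after `L` stages -/
lemma stepL (N : ℕ) (hN : N = 65536) (L : ℕ) (n : ℕ) (x : ℝ) (F : Finset (ℝ × ℝ))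
    (hV : Val Thr n x F) :
    ∃ (I : Finset ℕ) (G : ℕ → Finset (ℝ × ℝ)), I ⊆ Finset.range (N^L) ∧
      (∀ i ∈ I, Val Thr (n+L) (x + (2*(i:ℝ)+1-65536^L) * rho (n+L)) (G i)) ∧
      ∑ i ∈ I, Pot (n+L) (G i) ≤ 8192^L * Pot n F + 65536^L * (2*η) ∧
      (65536:ℝ)^L - I.card ≤ 2^11 * ((65536:ℝ)^L - 8192^L) * Pot n F +
        L * (65536^L * (2^11 * η)) := by
  classical
  have hNr : (N:ℝ) = 65536 := by rw [hN]; norm_num
  have hP0 : 0 ≤ Pot n F := Pot_nonneg hV.pos
  induction L with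
  | zero =>
    refine ⟨{0}, fun _ => F, by simp, ?_, ?_, ?_⟩
    · intro i hi
      rw [Finset.mem_singleton] at hi
      subst hi
      simpa using hV
    · simp only [Finset.sum_singleton, add_zero, pow_zero, one_mul]
      linarith
    · simp
  | succ L ih =>
    obtain ⟨I, G, hI, hG, hsum, hcard⟩ := ih
    have hstep : ∀ i ∈ I, ∃ p : Finset ℕ × (ℕ → Finset (ℝ × ℝ)), p.1 ⊆ Finset.range N ∧
        (∀ j ∈ p.1, Val Thr (n+L+1) ((x + (2*(i:ℝ)+1-65536^L) * rho (n+L)) +
          (2*(j:ℝ)+1-65536) * rho (n+L+1)) (p.2 j)) ∧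
        ∑ j ∈ p.1, Pot (n+L+1) (p.2 j) ≤ 8192 * Pot (n+L) (G i) + 65536 * η ∧
        (65536:ℝ) - p.1.card ≤ 2^26 * Pot (n+L) (G i) := by
      intro i hi
      obtain ⟨J, H, h⟩ := step1 Thr η hη0 hη hfin N hN (n+L) _ (G i) (hG i hi)
      exact ⟨(J, H), h⟩
    choose! p hp using hstep
    have hinj : Set.InjOn (fun q : (_ : ℕ) × ℕ => N * q.1 + q.2)
        (I.sigma (fun i => (p i).1) : Set ((_ : ℕ) × ℕ)) := by
      rintro ⟨a, b⟩ hab ⟨c, d⟩ hcd h
      have h1 := Finset.mem_sigma.1 (Finset.mem_coe.1 hab)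
      have h2 := Finset.mem_sigma.1 (Finset.mem_coe.1 hcd)
      have hb : b < N := Finset.mem_range.1 ((hp a h1.1).1 h1.2)
      have hd : d < N := Finset.mem_range.1 ((hp c h2.1).1 h2.2)
      simp only at h
      have e1 : a = c := by
        have h3 : (N * a + b) / N = a := by
          rw [Nat.mul_add_div (by omega), Nat.div_eq_of_lt hb, add_zero]
        have h4 : (N * c + d) / N = c := by
          rw [Nat.mul_add_div (by omega), Nat.div_eq_of_lt hd, add_zero]
        rw [h, h4] at h3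
        exact h3.symm
      subst e1
      have e2 : b = d := by omega
      subst e2
      rfl
    refine ⟨(I.sigma (fun i => (p i).1)).image (fun q => N * q.1 + q.2),
      fun k => (p (k / N)).2 (k % N), ?_, ?_, ?_, ?_⟩
    · intro k hk
      obtain ⟨⟨a, b⟩, hab, rfl⟩ := Finset.mem_image.1 hk
      have h1 := Finset.mem_sigma.1 hab
      have ha : a < N^L := Finset.mem_range.1 (hI h1.1)
      have hb : b < N := Finset.mem_range.1 ((hp a h1.1).1 h1.2)
      rw [Finset.mem_range, pow_succ]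
      simp only
      calc N * a + b < N * a + N := by omega
        _ = N * (a + 1) := by ring
        _ ≤ N * N^L := Nat.mul_le_mul_left _ ha
        _ = N^L * N := by ring
    · intro k hk
      obtain ⟨⟨a, b⟩, hab, rfl⟩ := Finset.mem_image.1 hk
      have h1 := Finset.mem_sigma.1 hab
      have hb : b < N := Finset.mem_range.1 ((hp a h1.1).1 h1.2)
      have h3 : (N * a + b) / N = a := by
        rw [Nat.mul_add_div (by omega), Nat.div_eq_of_lt hb, add_zero]
      have h4 : (N * a + b) % N = b := by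
        rw [Nat.mul_add_mod, Nat.mod_eq_of_lt hb]
      simp only [h3, h4]
      have h5 := (hp a h1.1).2.1 b h1.2
      have e : x + (2 * ((N * a + b : ℕ):ℝ) + 1 - 65536^(L+1)) * rho (n + (L+1)) =
          (x + (2*(a:ℝ)+1-65536^L) * rho (n+L)) + (2*(b:ℝ)+1-65536) * rho (n+L+1) := by
        have h6 : rho (n+L) = 65536 * rho (n+L+1) := by rw [rho_succ]; ring
        have h7 : rho (n + (L+1)) = rho (n+L+1) := by rw [add_assoc]
        rw [h6, h7]
        push_cast
        rw [hNr]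
        ring
      rw [e]
      exact h5
    · rw [Finset.sum_image hinj, Finset.sum_sigma]
      have h1 : ∀ i ∈ I, ∑ j ∈ (p i).1, Pot (n + (L+1)) ((p ((N * i + j)/N)).2 ((N*i+j) % N)) ≤
          8192 * Pot (n+L) (G i) + 65536 * η := by
        intro i hi
        refine le_trans (le_of_eq ?_) (hp i hi).2.2.1
        refine Finset.sum_congr rfl (fun j hj => ?_)
        have hb : j < N := Finset.mem_range.1 ((hp i hi).1 hj)
        have h3 : (N * i + j) / N = i := by
          rw [Nat.mul_add_div (by omega), Nat.div_eq_of_lt hb, add_zero]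
        have h4 : (N * i + j) % N = j := by
          rw [Nat.mul_add_mod, Nat.mod_eq_of_lt hb]
        rw [h3, h4]
        rfl
      refine (Finset.sum_le_sum h1).trans ?_
      rw [Finset.sum_add_distrib, ← Finset.mul_sum, Finset.sum_const, nsmul_eq_mul]
      have h2 : (I.card : ℝ) ≤ 65536^L := by
        have := Finset.card_le_card hI
        rw [Finset.card_range] at this
        rw [← hNr]
        exact_mod_cast this
      have h3 : (I.card : ℝ) * (65536 * η) ≤ 65536^L * (65536 * η) := by gcongr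
      have h4 : (0:ℝ) ≤ 65536^L * η := by positivity
      rw [pow_succ (65536:ℝ), pow_succ (8192:ℝ)]
      nlinarith
    · rw [Finset.card_image_of_injOn hinj, Finset.card_sigma]
      push_cast
      have h1 : ∑ i ∈ I, ((65536:ℝ) - (p i).1.card) ≤ ∑ i ∈ I, 2^26 * Pot (n+L) (G i) :=
        Finset.sum_le_sum (fun i hi => (hp i hi).2.2.2)
      rw [Finset.sum_sub_distrib, Finset.sum_const, nsmul_eq_mul, ← Finset.mul_sum] at h1
      have h2 : (2:ℝ)^26 * ∑ i ∈ I, Pot (n+L) (G i) ≤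
          2^26 * (8192^L * Pot n F + 65536^L * (2*η)) := by gcongr
      have h3 : (0:ℝ) ≤ 8192^L * Pot n F := by positivity
      rw [pow_succ (65536:ℝ), pow_succ (8192:ℝ)]
      set M : ℝ := (65536:ℝ)^L with hM
      set E : ℝ := (8192:ℝ)^L with hE
      nlinarith

/-- a quarter of the descendants after `l + 1` stages, far from each other and of small weight -/
lemma select (l : ℕ) (hηl : η ≤ 1/((l+1) * 2^18)) (n : ℕ) (x : ℝ) (F : Finset (ℝ × ℝ))
    (hV : Val Thr n x F) (hP : Pot n F ≤ 1/2^14) :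
    ∃ (g : Fin (16384 * 65536^l) → ℝ) (G : Fin (16384 * 65536^l) → Finset (ℝ × ℝ)),
      (∀ d, Val Thr (n+(l+1)) (g d) (G d) ∧ Pot (n+(l+1)) (G d) ≤ 1/2^14 ∧
        |g d - x| ≤ rho n - rho (n+(l+1))) ∧
      ∀ d d', d ≠ d' → 4 * rho (n+(l+1)) ≤ |g d - g d'| := by
  classical
  obtain ⟨N, hN⟩ : ∃ N : ℕ, N = 65536 := ⟨_, rfl⟩
  have hNr : (N:ℝ) = 65536 := by rw [hN]; norm_num
  obtain ⟨I, G, hI, hG, hsum, hcard⟩ := stepL Thr η hη0 hη hfin N hN (l+1) n x F hV
  have hP0 : 0 ≤ Pot n F := Pot_nonneg hV.pos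
  set J : Finset ℕ := I.filter (fun i => Pot (n+(l+1)) (G i) ≤ 1/2^14) with hJ
  -- the number of descendants of small weight
  have hJc : (65536:ℝ)^(l+1)/2 ≤ J.card := by
    have h1 : ∑ i ∈ I.filter (fun i => ¬ Pot (n+(l+1)) (G i) ≤ 1/2^14), (1/2^14 : ℝ) ≤
        ∑ i ∈ I, Pot (n+(l+1)) (G i) := by
      calc ∑ i ∈ I.filter (fun i => ¬ Pot (n+(l+1)) (G i) ≤ 1/2^14), (1/2^14 : ℝ) ≤
          ∑ i ∈ I.filter (fun i => ¬ Pot (n+(l+1)) (G i) ≤ 1/2^14), Pot (n+(l+1)) (G i) := by
            refine Finset.sum_le_sum (fun i hi => ?_)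
            have := (Finset.mem_filter.1 hi).2
            push Not at this
            exact this.le
        _ ≤ ∑ i ∈ I, Pot (n+(l+1)) (G i) :=
            Finset.sum_le_sum_of_subset_of_nonneg (Finset.filter_subset _ _)
              (fun i hi _ => Pot_nonneg (hG i hi).pos)
    rw [Finset.sum_const, nsmul_eq_mul] at h1
    have h2 : (J.card : ℝ) + (I.filter (fun i => ¬ Pot (n+(l+1)) (G i) ≤ 1/2^14)).card =
        I.card := by
      have := Finset.card_filter_add_card_filter_not (s := I)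
        (fun i => Pot (n+(l+1)) (G i) ≤ 1/2^14)
      rw [← Nat.cast_add]
      exact congrArg Nat.cast this
    have h3 := h1.trans hsum
    have hl0 : (0:ℝ) < (l:ℝ) + 1 := by positivity
    have hη1 : ((l:ℝ)+1) * η ≤ 1/2^18 := by
      rw [le_div_iff₀ (by positivity)] at hηl ⊢
      linarith
    have hη2 : η ≤ 1/2^18 := by
      have : η ≤ ((l:ℝ)+1) * η := by nlinarith [Nat.cast_nonneg (α := ℝ) l]
      linarith
    obtain ⟨M, hM⟩ : ∃ M : ℝ, M = (65536:ℝ)^(l+1) := ⟨_, rfl⟩
    obtain ⟨E, hE⟩ : ∃ E : ℝ, E = (8192:ℝ)^(l+1) := ⟨_, rfl⟩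
    rw [← hM] at hcard h3 ⊢
    rw [← hE] at hcard h3
    have hM0 : 0 < M := by rw [hM]; positivity
    have hE0 : 0 < E := by rw [hE]; positivity
    have hEM : 8 * E ≤ M := by
      rw [hM, hE, pow_succ, pow_succ]
      have : (8192:ℝ)^l ≤ 65536^l := pow_le_pow_left₀ (by norm_num) (by norm_num) l
      linarith
    have e1 : 2^11 * (M - E) * Pot n F ≤ 2^11 * M * (1/2^14) := by
      have : 0 ≤ M - E := by linarith
      calc 2^11 * (M - E) * Pot n F ≤ 2^11 * (M - E) * (1/2^14) := by gcongr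
        _ ≤ 2^11 * M * (1/2^14) := by gcongr; linarith
    have e2 : ((l+1:ℕ):ℝ) * (M * (2^11 * η)) ≤ M * 2^11 * (1/2^18) := by
      push_cast
      calc ((l:ℝ)+1) * (M * (2^11 * η)) = M * 2^11 * (((l:ℝ)+1) * η) := by ring
        _ ≤ M * 2^11 * (1/2^18) := by gcongr
    have e3 : E * Pot n F ≤ E * (1/2^14) := by gcongr
    have e4 : M * (2 * η) ≤ M * (2 * (1/2^18)) := by gcongr
    linarith
  -- one parity class
  obtain ⟨r, hr⟩ : ∃ r : ℕ, 16384 * 65536^l ≤ (J.filter (fun i => i % 2 = r)).card := by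
    by_contra hcon
    push Not at hcon
    have h0 := hcon 0
    have h1 := hcon 1
    have h2 : J.card = (J.filter (fun i => i % 2 = 0)).card +
        (J.filter (fun i => i % 2 = 1)).card := by
      rw [← Finset.card_filter_add_card_filter_not (s := J) (fun i => i % 2 = 0)]
      congr 2
      refine Finset.filter_congr (fun i _ => ?_)
      omega
    have h3 : J.card < 2 * (16384 * 65536^l) := by omega
    have h4 : (J.card : ℝ) < 2 * (16384 * 65536^l) := by exact_mod_cast h3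
    rw [pow_succ] at hJc
    linarith
  obtain ⟨S, hS, hSc⟩ := Finset.exists_subset_card_eq hr
  let e := (Finset.equivFinOfCardEq hSc).symm
  have hmem : ∀ d, ((e d : ℕ)) ∈ I ∧ Pot (n+(l+1)) (G (e d)) ≤ 1/2^14 ∧ (e d : ℕ) % 2 = r := by
    intro d
    have h1 := hS (e d).2
    rw [Finset.mem_filter, hJ, Finset.mem_filter] at h1
    exact ⟨h1.1.1, h1.1.2, h1.2⟩
  have hρ' := rho_pos (n+(l+1))
  have hrho : rho n = 65536^(l+1) * rho (n+(l+1)) := by
    unfold rho
    have h1 : (65536:ℝ)^(l+1) * (1/65536)^(l+1) = 1 := by rw [← mul_pow]; norm_num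
    calc (1/65536:ℝ)^n = (1/65536)^n * (65536^(l+1) * (1/65536)^(l+1)) := by rw [h1, mul_one]
      _ = 65536^(l+1) * (1/65536)^(n+(l+1)) := by
        rw [pow_add (1/65536:ℝ) n (l+1)]; ring
  refine ⟨fun d => x + (2*((e d : ℕ):ℝ)+1-65536^(l+1)) * rho (n+(l+1)), fun d => G (e d), ?_, ?_⟩
  · intro d
    obtain ⟨h1, h2, h3⟩ := hmem d
    refine ⟨hG _ h1, h2, ?_⟩
    have h4 : (e d : ℕ) < N^(l+1) := Finset.mem_range.1 (hI h1)
    have h5 : ((e d : ℕ):ℝ) + 1 ≤ 65536^(l+1) := by
      rw [← hNr]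
      exact_mod_cast h4
    have h6 : (0:ℝ) ≤ ((e d : ℕ):ℝ) := Nat.cast_nonneg _
    rw [add_sub_cancel_left, hrho, abs_le]
    constructor
    · nlinarith [mul_nonneg h6 hρ'.le]
    · nlinarith
  · intro d d' hdd
    obtain ⟨h1, h2, h3⟩ := hmem d
    obtain ⟨h1', h2', h3'⟩ := hmem d'
    have hne : (e d : ℕ) ≠ (e d' : ℕ) := by
      intro h
      exact hdd (e.injective (Subtype.ext h))
    have h4 : (2:ℤ) ≤ |((e d : ℕ):ℤ) - ((e d' : ℕ):ℤ)| := by
      rcases lt_or_gt_of_ne hne with h | h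
      · rw [abs_of_neg (by omega)]; omega
      · rw [abs_of_pos (by omega)]; omega
    have h5 : (2:ℝ) ≤ |((e d : ℕ):ℝ) - ((e d' : ℕ):ℝ)| := by exact_mod_cast h4
    have e1 : (x + (2*((e d : ℕ):ℝ)+1-65536^(l+1)) * rho (n+(l+1))) -
        (x + (2*((e d' : ℕ):ℝ)+1-65536^(l+1)) * rho (n+(l+1))) =
        (2 * rho (n+(l+1))) * (((e d : ℕ):ℝ) - ((e d' : ℕ):ℝ)) := by ring
    rw [e1, abs_mul, abs_of_pos (by positivity : 0 < 2 * rho (n+(l+1)))]
    nlinarith

omit hη0 hη hfin in
/-- the limit point of a nested sequence of admissible intervals avoids all threats -/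
lemma limit (L : ℕ) (hL : 1 ≤ L) (X : ℕ → ℝ) (F : ℕ → Finset (ℝ × ℝ))
    (hV : ∀ j, Val Thr (L*j) (X j) (F j))
    (hX : ∀ j, |X (j+1) - X j| ≤ rho (L*j) - rho (L*(j+1))) :
    ∃ ξ : ℝ, (∀ j, |ξ - X j| ≤ rho (L*j)) ∧ ∀ n, ∀ t ∈ Thr n, t.2 ≤ |ξ - t.1| := by
  have hmono : ∀ n k, |X (n+k) - X n| ≤ rho (L*n) - rho (L*(n+k)) := by
    intro n k
    induction k with
    | zero => simp
    | succ k ih =>
      have h1 := hX (n+k)
      have h2 : |X (n+(k+1)) - X n| ≤ |X (n+k+1) - X (n+k)| + |X (n+k) - X n| := abs_sub_le _ _ _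
      have h3 : rho (L*(n + (k+1))) = rho (L*(n+k+1)) := by rw [add_assoc]
      rw [h3]
      linarith
  have hrho : Filter.Tendsto rho Filter.atTop (nhds 0) := by
    unfold rho
    exact tendsto_pow_atTop_nhds_zero_of_lt_one (by norm_num) (by norm_num)
  have hLt : Filter.Tendsto (fun j => L*j) Filter.atTop Filter.atTop :=
    Filter.tendsto_id.const_mul_atTop' (by omega)
  have hrho0 : Filter.Tendsto (fun j => rho (L*j)) Filter.atTop (nhds 0) := hrho.comp hLt
  have hcauchy : CauchySeq X := by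
    rw [Metric.cauchySeq_iff']
    intro ε hε
    obtain ⟨N, hN⟩ := (hrho0.eventually (gt_mem_nhds hε)).exists
    refine ⟨N, fun n hn => ?_⟩
    obtain ⟨k, rfl⟩ := Nat.exists_eq_add_of_le hn
    rw [Real.dist_eq]
    have := hmono N k
    have h2 := rho_pos (L*(N+k))
    linarith
  obtain ⟨ξ, hξ⟩ := cauchySeq_tendsto_of_complete hcauchy
  have hlim : ∀ n, |ξ - X n| ≤ rho (L*n) := by
    intro n
    have h1 : Filter.Tendsto (fun k => |X (n+k) - X n|) Filter.atTop (nhds |ξ - X n|) := by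
      have h2 : Filter.Tendsto (fun k => X (n+k)) Filter.atTop (nhds ξ) := by
        have := hξ.comp (Filter.tendsto_add_atTop_nat n)
        refine this.congr (fun k => ?_)
        simp [Function.comp, add_comm]
      exact (h2.sub_const _).abs
    refine le_of_tendsto' h1 (fun k => ?_)
    have := hmono n k
    have h2 := rho_pos (L*(n+k))
    linarith
  refine ⟨ξ, hlim, fun n t ht => ?_⟩
  by_contra hlt
  push Not at hlt
  have hLk : ∀ k, n ≤ k → n ≤ L * k := fun k hk => hk.trans (Nat.le_mul_of_pos_left k (by omega))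
  have hmem : ∀ k, n ≤ k → t ∈ F k := by
    intro k hk
    refine (hV k).all n (hLk k hk) t ht ?_
    have h1 := hlim k
    have h2 : |t.1 - X k| ≤ |t.1 - ξ| + |ξ - X k| := abs_sub_le _ _ _
    rw [abs_sub_comm t.1 ξ] at h2
    linarith
  have htpos : 0 < t.2 := lt_of_le_of_lt (abs_nonneg _) hlt
  have hsm : ∀ k, n ≤ k → t.2 ≤ rho (L*k) := by
    intro k hk
    have h1 : W (t.2/rho (L*k)) ≤ 1/4096 := by
      refine le_trans ?_ (hV k).pot
      refine Finset.single_le_sum (f := fun t => W (t.2/rho (L*k)))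
        (fun s hs => W_nonneg (div_nonneg ?_ (rho_pos _).le)) (hmem k hk)
      exact ((hV k).pos s hs).le
    have h2 := W_small (div_nonneg htpos.le (rho_pos _).le) h1
    rw [div_le_iff₀ (rho_pos _)] at h2
    have := rho_pos (L*k)
    linarith
  obtain ⟨k, hk1, hk2⟩ := ((hrho0.eventually (gt_mem_nhds htpos)).and
    (Filter.eventually_ge_atTop n)).exists
  have := hsm k hk2
  linarith

/-- **The dimension of the set of the points which avoid all threats.** -/
theorem game_dim (l : ℕ) (hηl : η ≤ 1/((l+1) * 2^18)) (s : ℝ) (hs0 : 0 < s)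
    (hs : s ≤ 1 - 1/(8*(l+1))) :
    ENNReal.ofReal s ≤ dimH {ξ : ℝ | ∀ n, ∀ t ∈ Thr n, t.2 ≤ |ξ - t.1|} := by
  classical
  set K : ℕ := 16384 * 65536^l with hK
  let St : ℕ → Type := fun j => {p : ℝ × Finset (ℝ × ℝ) //
    Val Thr ((l+1)*j) p.1 p.2 ∧ Pot ((l+1)*j) p.2 ≤ 1/2^14}
  have h0 : Nonempty (St 0) := by
    obtain ⟨F, hF1, hF2, hF3⟩ := hfin 0 0 (fun m hm => absurd hm (by omega))
    have hη2 : η ≤ 1/2^14 := by
      refine hηl.trans ?_
      refine one_div_le_one_div_of_le (by norm_num) ?_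
      have : (0:ℝ) ≤ l := Nat.cast_nonneg l
      nlinarith
    have hP : Pot ((l+1)*0) F ≤ 1/2^14 := hF3.trans hη2
    refine ⟨⟨(0, F), ⟨hF2, hP.trans (by norm_num), ?_⟩, hP⟩⟩
    intro m hm t ht hmeet
    have hm0 : m = 0 := by omega
    subst hm0
    exact hF1 t ⟨ht, hmeet⟩
  have hstep : ∀ j (p : St j), ∃ c : Fin K → St (j+1),
      (∀ d, |(c d).1.1 - p.1.1| ≤ rho ((l+1)*j) - rho ((l+1)*(j+1))) ∧
      ∀ d d', d ≠ d' → 4 * rho ((l+1)*(j+1)) ≤ |(c d).1.1 - (c d').1.1| := by
    intro j p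
    obtain ⟨g, G, h1, h2⟩ := select Thr η hη0 hη hfin l hηl ((l+1)*j) p.1.1 p.1.2 p.2.1 p.2.2
    exact ⟨fun d => ⟨(g d, G d), (h1 d).1, (h1 d).2.1⟩, fun d => (h1 d).2.2, h2⟩
  choose nxt hnxt1 hnxt2 using hstep
  let seq : (ℕ → Fin K) → (j : ℕ) → St j := fun t j =>
    Nat.rec (Classical.choice h0) (fun j s => nxt j s (t j)) j
  have hlim : ∀ t : ℕ → Fin K, ∃ ξ : ℝ, (∀ j, |ξ - (seq t j).1.1| ≤ rho ((l+1)*j)) ∧
      ∀ n, ∀ s ∈ Thr n, s.2 ≤ |ξ - s.1| := by
    intro t
    exact limit Thr (l+1) (by omega) (fun j => (seq t j).1.1) (fun j => (seq t j).1.2)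
      (fun j => (seq t j).2.1) (fun j => hnxt1 j (seq t j) (t j))
  choose pt hpt1 hpt2 using hlim
  have hK2 : 2 ≤ K := by
    rw [hK]
    have : 1 ≤ 65536^l := Nat.one_le_pow _ _ (by norm_num)
    omega
  have hq : (0:ℝ) < rho (l+1) := rho_pos _
  have hrho : ∀ j, rho ((l+1)*j) = (rho (l+1))^j := by
    intro j
    unfold rho
    rw [← pow_mul]
  refine le_trans (dimH_range_ge K hK2 pt (rho (l+1)) (2 * rho (l+1)) s hq (by positivity) hs0
    ?_ ?_) (dimH_mono ?_)
  · have e1 : rho (l+1) = (4:ℝ)^(-(8*((l:ℝ)+1))) := by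
      unfold rho
      rw [show (1/65536:ℝ) = (4:ℝ)^(-(8:ℝ)) by
        rw [Real.rpow_neg (by norm_num)]; norm_num, ← Real.rpow_natCast, ← Real.rpow_mul (by norm_num)]
      congr 1
      push_cast
      ring
    have e2 : ((K:ℕ):ℝ)⁻¹ = (4:ℝ)^(-(8*((l:ℝ)+1)-1)) := by
      rw [Real.rpow_neg (by norm_num)]
      congr 1
      rw [hK]
      push_cast
      have e3 : (8*((l:ℝ)+1)-1) = ((8*l+7 : ℕ):ℝ) := by push_cast; ring
      rw [e3, Real.rpow_natCast, pow_add, pow_mul]
      norm_num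
      ring
    rw [e1, e2, ← Real.rpow_mul (by norm_num)]
    refine Real.rpow_le_rpow_of_exponent_le (by norm_num) ?_
    have hl0 : (0:ℝ) < 8*((l:ℝ)+1) := by positivity
    have h1 : s * (8*((l:ℝ)+1)) ≤ 8*((l:ℝ)+1) - 1 := by
      calc s * (8*((l:ℝ)+1)) ≤ (1 - 1/(8*((l:ℝ)+1))) * (8*((l:ℝ)+1)) := by gcongr
        _ = 8*((l:ℝ)+1) - 1 := by field_simp
    linarith
  · intro t t' n hagree hne
    have hsame : ∀ j ≤ n, seq t j = seq t' j := by
      intro j hj
      induction j with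
      | zero => rfl
      | succ j ih =>
        have h1 := ih (by omega)
        have h2 := hagree j (by omega)
        show nxt j (seq t j) (t j) = nxt j (seq t' j) (t' j)
        rw [h1, h2]
    have h1 : 4 * rho ((l+1)*(n+1)) ≤ |(seq t (n+1)).1.1 - (seq t' (n+1)).1.1| := by
      have h2 : seq t (n+1) = nxt n (seq t n) (t n) := rfl
      have h3 : seq t' (n+1) = nxt n (seq t n) (t' n) := by
        show nxt n (seq t' n) (t' n) = _
        rw [hsame n le_rfl]
      rw [h2, h3]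
      exact hnxt2 n (seq t n) (t n) (t' n) hne
    have h2 := hpt1 t (n+1)
    have h3 := hpt1 t' (n+1)
    have h4 : |(seq t (n+1)).1.1 - (seq t' (n+1)).1.1| ≤
        |(seq t (n+1)).1.1 - pt t| + |pt t - pt t'| + |pt t' - (seq t' (n+1)).1.1| := by
      have a1 := abs_sub_le (seq t (n+1)).1.1 (pt t) (seq t' (n+1)).1.1
      have a2 := abs_sub_le (pt t) (pt t') (seq t' (n+1)).1.1
      linarith
    rw [abs_sub_comm (seq t (n+1)).1.1 (pt t)] at h4
    have e1 : rho ((l+1)*(n+1)) = rho (l+1) ^ n * rho (l+1) := by rw [hrho, pow_succ]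
    rw [e1] at h1 h2 h3
    linarith
  · rintro _ ⟨t, rfl⟩
    exact hpt2 t

end

end Pool.Agent.Y754.GD
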