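import Pool.Agent.Y754.GD.SysP
import Pool.Agent.Y754.GD.SysD
import Pool.Agent.Y754.GD.Tree

set_option autoImplicit false

/-!
# Countably many systems of threats at the same time
-/

namespace Pool.Agent.Y754.GD

open Pool.Agent.H238R3.Lines Pool.Agent.H238R3.Game Pool.Agent.H238R3.Fam

/-- the threats `Thr` have weight at most `e` at every stage, in the intervals which no earlier
threat contains -/
def Fm (Thr : ℕ → Set (ℝ × ℝ)) (e : ℝ) : Prop :=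
  ∀ (n : ℕ) (x : ℝ), (∀ m < n, ∀ t ∈ Thr m, ¬ (|x - t.1| + rho n ≤ t.2)) →
    Small (rho n) {t | t ∈ Thr n ∧ |t.1 - x| < t.2 + rho n} e

lemma rho_anti {m k : ℕ} (h : m ≤ k) : rho k ≤ rho m := by
  unfold rho
  exact pow_le_pow_of_le_one (by norm_num) (by norm_num) h

lemma W_rho {a : ℝ} (ha : 0 ≤ a) (m d : ℕ) : W (a/rho (m+d)) = 4096^d * W (a/rho m) := by
  induction d with
  | zero => simp
  | succ d ih =>
    have h1 : a/rho (m+(d+1)) = 65536 * (a/rho (m+d)) := by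
      rw [← add_assoc, rho_succ]
      have := rho_pos (m+d)
      field_simp
    rw [h1, W_scale (div_nonneg ha (rho_pos _).le), ih, pow_succ]
    ring

lemma small_rescale {m k : ℕ} (h : m ≤ k) {S : Set (ℝ × ℝ)} {e : ℝ} (hS : Small (rho m) S e) :
    Small (rho k) S (4096^(k-m) * e) := by
  obtain ⟨F, h1, h2, h3⟩ := hS
  refine ⟨F, h1, h2, ?_⟩
  obtain ⟨d, rfl⟩ := Nat.exists_eq_add_of_le h
  have e1 : m + d - m = d := by omega
  rw [e1]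
  calc ∑ t ∈ F, W (t.2/rho (m+d)) = ∑ t ∈ F, 4096^d * W (t.2/rho m) :=
        Finset.sum_congr rfl (fun t ht => W_rho (h2 t ht).le m d)
    _ = 4096^d * ∑ t ∈ F, W (t.2/rho m) := by rw [Finset.mul_sum]
    _ ≤ 4096^d * e := by gcongr

/-- no threats before stage `k` -/
lemma delay (Thr : ℕ → Set (ℝ × ℝ)) (e : ℝ) (he : 0 ≤ e) (k : ℕ)
    (hsz : ∀ n ≤ k, ∀ t ∈ Thr n, t.2 < rho k) (hF : Fm Thr e) :
    ∃ Thr' : ℕ → Set (ℝ × ℝ), (∀ n < k, Thr' n = ∅) ∧ (∀ n, ∀ t ∈ Thr n, ∃ m, t ∈ Thr' m) ∧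
      Fm Thr' ((k+1) * (4096^k * e)) := by
  have hk1 : (1:ℝ) ≤ (4096:ℝ)^k := one_le_pow₀ (by norm_num)
  have hbig : e ≤ (k+1) * (4096^k * e) := by
    have h0 : (0:ℝ) ≤ k := Nat.cast_nonneg k
    have h1 : e ≤ 4096^k * e := by nlinarith
    have h2 : 0 ≤ (4096:ℝ)^k * e := by positivity
    nlinarith
  refine ⟨fun n => {t | (n = k ∧ ∃ m ≤ k, t ∈ Thr m) ∨ (k < n ∧ t ∈ Thr n)}, ?_, ?_, ?_⟩
  · intro n hn
    ext t
    simp only [Set.mem_ofPred_eq, Set.mem_empty_iff_false, iff_false]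
    rintro (⟨h, _⟩ | ⟨h, _⟩) <;> omega
  · intro n t ht
    rcases le_or_gt n k with h | h
    · exact ⟨k, Or.inl ⟨rfl, n, h, ht⟩⟩
    · exact ⟨n, Or.inr ⟨h, ht⟩⟩
  · intro n x hT
    rcases lt_trichotomy n k with h | h | h
    · refine Small.empty.mono ?_ (he.trans hbig)
      rintro t ⟨(⟨h1, _⟩ | ⟨h1, _⟩), _⟩ <;> omega
    · subst h
      have hm : ∀ m ∈ Finset.range (n+1), Small (rho n) {t | t ∈ Thr m ∧ |t.1 - x| < t.2 + rho m}
          (4096^n * e) := by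
        intro m hm
        have hmn : m ≤ n := by have := Finset.mem_range.1 hm; omega
        have hr := rho_anti hmn
        have h1 := hF m x (fun m' hm' t ht hc => by
            have := hsz m' (by omega) t ht
            have h0 := abs_nonneg (x - t.1)
            linarith)
        refine (small_rescale hmn h1).mono (fun t ht => ht) ?_
        have : (4096:ℝ)^(n-m) ≤ 4096^n := pow_le_pow_right₀ (by norm_num) (by omega)
        gcongr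
      have h2 := Small.biUnion (rho_pos n) (Finset.range (n+1)) _ _ hm
      rw [Finset.sum_const, Finset.card_range, nsmul_eq_mul] at h2
      push_cast at h2
      refine h2.mono ?_ le_rfl
      rintro t ⟨(⟨_, m, hm1, hm2⟩ | ⟨h1, _⟩), hmeet⟩
      · exact ⟨m, Finset.mem_range.2 (by omega), hm2, by linarith [rho_anti hm1]⟩
      · omega
    · refine (hF n x ?_).mono ?_ hbig
      · intro m hm t ht
        rcases le_or_gt m k with h1 | h1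
        · exact hT k h t (Or.inl ⟨rfl, m, h1, ht⟩)
        · exact hT m hm t (Or.inr ⟨h1, ht⟩)
      · rintro t ⟨(⟨h1, _⟩ | ⟨_, h1⟩), hmeet⟩
        · omega
        · exact ⟨h1, hmeet⟩

/-- a threat seen through the map `x ↦ σ x + a` -/
def tr (σ a : ℝ) (t : ℝ × ℝ) : ℝ × ℝ := (σ * (t.1 - a), t.2)

lemma tr_dist {σ : ℝ} (hσ : σ = 1 ∨ σ = -1) (a x : ℝ) (t : ℝ × ℝ) :
    |x - (tr σ a t).1| = |(σ * x + a) - t.1| := by
  rcases hσ with rfl | rfl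
  · simp only [tr]; congr 1; ring
  · simp only [tr]; rw [← abs_neg]; congr 1; ring

lemma Fm_tr {σ : ℝ} (hσ : σ = 1 ∨ σ = -1) (a : ℝ) {Thr : ℕ → Set (ℝ × ℝ)} {e : ℝ}
    (hF : Fm Thr e) : Fm (fun n => tr σ a '' Thr n) e := by
  classical
  intro n x hno
  obtain ⟨F, h1, h2, h3⟩ := hF n (σ * x + a) (fun m hm t ht hc => hno m hm (tr σ a t) ⟨t, ht, rfl⟩
    (by rw [tr_dist hσ]; exact hc))
  have hinj : Function.Injective (tr σ a) := by
    rintro ⟨u, v⟩ ⟨u', v'⟩ h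
    simp only [tr, Prod.mk.injEq] at h
    obtain ⟨h4, h5⟩ := h
    have : u = u' := by rcases hσ with rfl | rfl <;> linarith
    rw [this, h5]
  refine ⟨F.image (tr σ a), ?_, ?_, ?_⟩
  · rintro _ ⟨⟨t, ht, rfl⟩, hmeet⟩
    refine Finset.mem_image_of_mem _ (h1 t ⟨ht, ?_⟩)
    rw [abs_sub_comm, tr_dist hσ, abs_sub_comm] at hmeet
    exact hmeet
  · intro t ht
    obtain ⟨u, hu, rfl⟩ := Finset.mem_image.1 ht
    exact h2 u hu
  · rw [Finset.sum_image (fun _ _ _ _ h => hinj h)]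
    exact h3

/-- what the game yields for `ζ` and the number `ξ` -/
def Good (ζ ξ : ℝ) : Prop :=
  (∃ c : ℝ, 0 < c ∧ ∀ v : ℤ × ℤ, IsCoprime v.1 v.2 → 0 < v.1 →
    c/(v.1:ℝ)^2 ≤ |ξ - (v.2:ℝ)/v.1|) ∧
  (∃ (ε : ℝ) (C : ℕ), 0 < ε ∧ 1 ≤ C ∧
    ∀ (m : ℕ) (v : ℤ × ℤ × ℤ), Prim v → 0 < v.1 → (v.1:ℝ) ≤ ((2:ℝ)^(C*5^m))^4 →
    |(v.2.1:ℝ) - ζ * v.1| < 1 →
    (thP ζ ε ((2:ℝ)^(C*5^m)) v).2 ≤ |ξ - (thP ζ ε ((2:ℝ)^(C*5^m)) v).1|) ∧
  (∃ κ : ℝ, 0 < κ ∧ ∀ (v : ℤ × ℤ × ℤ), Prim v → 0 < v.1 →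
    κ ≤ Real.sqrt (v.1:ℝ) * max |(v.2.1:ℝ) - ζ * v.1| |(v.1:ℝ) * ξ - v.2.2|)

/-- all threats for one `ζ`, with arbitrarily small weight -/
theorem sysAll (ζ δ η : ℝ) (hη : 0 < η) (hδ : 0 < δ) (hδ1 : δ ≤ 1)
    (hbad : ∀ q p : ℤ, q ≠ 0 → δ ≤ |(q:ℝ)| * |(q:ℝ)*ζ - p|) :
    ∃ Thr : ℕ → Set (ℝ × ℝ), (∀ n, ∀ t ∈ Thr n, t.2 ≤ η * rho n) ∧ Fm Thr η ∧
      ∀ ξ : ℝ, (∀ n, ∀ t ∈ Thr n, t.2 ≤ |ξ - t.1|) → Good ζ ξ := by
  obtain ⟨s, hs⟩ : ∃ s : ℝ, s = min (η/3) 1 := ⟨_, rfl⟩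
  have hs0 : 0 < s := by rw [hs]; exact lt_min (by positivity) one_pos
  have hs1 : s ≤ 1 := by rw [hs]; exact min_le_right _ _
  have hsη : s ≤ η/3 := by rw [hs]; exact min_le_left _ _
  obtain ⟨kB, hkB⟩ : ∃ kB : ℝ, kB = s^4/2^19 := ⟨_, rfl⟩
  have hkB0 : 0 < kB := by rw [hkB]; positivity
  have hkBs : 2^19 * kB = s^4 := by rw [hkB]; field_simp
  have hs4 : s^4 ≤ s := by
    calc s^4 = s^3 * s := by ring
      _ ≤ 1 * s := by
        have : s^3 ≤ 1 := pow_le_one₀ hs0.le hs1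
        gcongr
      _ = s := one_mul s
  obtain ⟨TP, ε, C, hε, hC, hszP, hfP, hP⟩ :=
    systemP kB ζ δ (η/3) hkB0 (by positivity) hδ hδ1 hbad
  obtain ⟨TD, κ, hκ, hszD, hfD, hD⟩ := systemD ζ δ (η/3) (by positivity) hδ hbad
  refine ⟨fun n => BThr kB n ∪ (TP n ∪ TD n), ?_, ?_, ?_⟩
  · rintro n t (⟨v, hv, rfl⟩ | ht | ht)
    · have h1 := (thBk_rel hkB0 (rho_pos n) hv).2
      rw [div_le_iff₀ (rho_pos n), hkBs] at h1
      refine h1.trans (mul_le_mul_of_nonneg_right ?_ (rho_pos n).le)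
      linarith
    · refine (hszP n t ht).2.trans (mul_le_mul_of_nonneg_right ?_ (rho_pos n).le)
      linarith
    · refine (hszD n t ht).2.trans (mul_le_mul_of_nonneg_right ?_ (rho_pos n).le)
      linarith
  · intro n x hno
    have s1 := smallB kB (rho n) x (η/3) hkB0 (rho_pos n) s hs0.le hs1 hkBs hsη
    have s2 := hfP n x (fun m hm t ht => hno m hm t (Or.inl ht))
      (fun m hm t ht => hno m hm t (Or.inr (Or.inl ht)))
    have s3 := hfD n x (fun m hm t ht => hno m hm t (Or.inr (Or.inr ht)))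
    refine (s1.union (rho_pos n) (s2.union (rho_pos n) s3)).mono ?_ (le_of_eq (by ring))
    rintro t ⟨(⟨v, hv, rfl⟩ | ht | ht), hmeet⟩
    · exact Or.inl ⟨v, ⟨hv, hmeet⟩, rfl⟩
    · exact Or.inr (Or.inl ⟨ht, hmeet⟩)
    · exact Or.inr (Or.inr ⟨ht, hmeet⟩)
  · intro ξ hξ
    refine ⟨⟨kB, hkB0, ?_⟩, ⟨ε, C, hε, hC, hP ξ (fun n t ht => hξ n t (Or.inr (Or.inl ht)))⟩,
      ⟨κ, hκ, hD ξ (fun n t ht => hξ n t (Or.inr (Or.inr ht)))⟩⟩
    intro v hv hv0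
    obtain ⟨n, hn, _⟩ := stBk kB v hv hv0
    exact hξ n (thBk kB v) (Or.inl hn)

/-- **Countably many badly approximable numbers, translates and reflections at the same time.** -/
theorem full (ζ δ σ a : ℕ → ℝ) (hσ : ∀ k, σ k = 1 ∨ σ k = -1) (hδ : ∀ k, 0 < δ k)
    (hδ1 : ∀ k, δ k ≤ 1)
    (hbad : ∀ k, ∀ q p : ℤ, q ≠ 0 → δ k ≤ |(q:ℝ)| * |(q:ℝ)*(ζ k) - p|) (l : ℕ) (s : ℝ)
    (hs0 : 0 < s) (hs : s ≤ 1 - 1/(8*(l+1))) :
    ENNReal.ofReal s ≤ dimH {ξ : ℝ | ∀ k, Good (ζ k) (σ k * ξ + a k)} := by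
  obtain ⟨η, hηdef⟩ : ∃ η : ℝ, η = 1/(((l:ℝ)+1) * 2^18) := ⟨_, rfl⟩
  have hl0 : (0:ℝ) ≤ l := Nat.cast_nonneg l
  have hη0 : 0 < η := by rw [hηdef]; positivity
  have hη1 : η ≤ 1/2^18 := by
    rw [hηdef]
    refine one_div_le_one_div_of_le (by norm_num) ?_
    nlinarith
  have hη2 : η ≤ 1/8192 := hη1.trans (by norm_num)
  obtain ⟨e, he⟩ : ∃ e : ℕ → ℝ, e = fun k => η/(8 * 65536^k) := ⟨_, rfl⟩
  have he0 : ∀ k, 0 < e k := fun k => by rw [he]; positivity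
  have her : ∀ k, e k < rho k := by
    intro k
    rw [he]
    unfold rho
    rw [one_div, inv_pow]
    simp only
    rw [div_lt_iff₀ (by positivity)]
    have : ((65536:ℝ)^k)⁻¹ * (8 * 65536^k) = 8 := by field_simp
    rw [this]
    linarith [show (1:ℝ)/2^18 < 8 by norm_num]
  have hew : ∀ k : ℕ, ((k:ℝ)+1) * (4096^k * e k) ≤ (η/8) * (1/2)^k := by
    intro k
    rw [he]
    simp only
    have h1 : (k:ℝ) + 1 ≤ 2^k := by
      have : k + 1 ≤ 2^k := Nat.lt_two_pow_self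
      exact_mod_cast this
    have h2 : (4096:ℝ)^k * (η/(8 * 65536^k)) = (η/8) * (1/16)^k := by
      rw [div_pow, one_pow, show (65536:ℝ) = 4096 * 16 by norm_num, mul_pow]
      field_simp
    rw [h2]
    have h3 : (0:ℝ) ≤ (η/8) * (1/16)^k := by positivity
    calc ((k:ℝ)+1) * ((η/8) * (1/16)^k) ≤ 2^k * ((η/8) * (1/16)^k) := by gcongr
      _ = (η/8) * (2 * (1/16))^k := by rw [mul_pow]; ring
      _ ≤ (η/8) * (1/2)^k := by
        have : (2 * (1/16) : ℝ)^k ≤ (1/2)^k := pow_le_pow_left₀ (by norm_num) (by norm_num) k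
        gcongr
  choose T hsz hfT hT using fun k => sysAll (ζ k) (δ k) (e k) (he0 k) (hδ k) (hδ1 k) (hbad k)
  have hsz' : ∀ k, ∀ n ≤ k, ∀ t ∈ tr (σ k) (a k) '' T k n, t.2 < rho k := by
    rintro k n _ _ ⟨t, ht, rfl⟩
    have h1 := hsz k n t ht
    have h2 : rho n ≤ 1 := by
      have := rho_anti (Nat.zero_le n)
      unfold rho at this ⊢
      simpa using this
    have h3 := her k
    have h4 := he0 k
    simp only [tr]
    nlinarith
  choose T' hT1 hT2 hT3 using fun k => delay (fun n => tr (σ k) (a k) '' T k n) (e k) (he0 k).le k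
    (hsz' k) (Fm_tr (hσ k) (a k) (hfT k))
  obtain ⟨Thr, hThr⟩ : ∃ Thr : ℕ → Set (ℝ × ℝ), Thr = fun n => {t | ∃ k, t ∈ T' k n} := ⟨_, rfl⟩
  have hfin : ∀ (n : ℕ) (x : ℝ), (∀ m < n, ∀ t ∈ Thr m, ¬ (|x - t.1| + rho n ≤ t.2)) →
      Small (rho n) {t | t ∈ Thr n ∧ |t.1 - x| < t.2 + rho n} η := by
    intro n x hno
    rw [hThr] at hno ⊢
    have s2 : ∀ k ∈ Finset.range (n+1), Small (rho n)
        {t | t ∈ T' k n ∧ |t.1 - x| < t.2 + rho n} ((η/8) * (1/2)^k) := by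
      intro k _
      exact (hT3 k n x (fun m hm t ht => hno m hm t ⟨k, ht⟩)).mono (fun t ht => ht) (hew k)
    have s3 := Small.biUnion (rho_pos n) (Finset.range (n+1)) _ _ s2
    refine s3.mono ?_ ?_
    · rintro t ⟨⟨k, hk⟩, hmeet⟩
      have hkn : k ∈ Finset.range (n+1) := by
        rw [Finset.mem_range]
        by_contra hge
        push Not at hge
        rw [hT1 k n (by omega)] at hk
        simp at hk
      exact ⟨k, hkn, hk, hmeet⟩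
    · rw [← Finset.mul_sum]
      have := sum_geometric_two_le (n+1)
      have h4 : (η/8) * ∑ i ∈ Finset.range (n+1), (1/2:ℝ)^i ≤ (η/8) * 2 := by gcongr
      linarith
  refine (game_dim Thr η hη0.le hη2 hfin l hηdef.le s hs0 hs).trans (dimH_mono ?_)
  intro ξ hξ k
  refine hT k _ (fun n t ht => ?_)
  obtain ⟨m, hm⟩ := hT2 k n (tr (σ k) (a k) t) ⟨t, ht, rfl⟩
  have h1 := hξ m (tr (σ k) (a k) t) (by rw [hThr]; exact ⟨k, hm⟩)
  rw [tr_dist (hσ k)] at h1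
  exact h1

end Pool.Agent.Y754.GD
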