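import Pool.Agent.Y754.GD.Comb

set_option autoImplicit false

/-!
# Uniform multiplicative approximation: full Hausdorff dimension

For every countable set `Z` of badly approximable numbers the set of the badly approximable `ξ` such
that, for all `ζ` in `Z`, `D(ξ, ζ) > 0` and `(ξ, ζ)` is a badly approximable vector, has Hausdorff
dimension one.
-/

namespace Pool.Agent.Y754.GD

open Pool.Agent.H238R3.Lines Pool.Agent.H238R3.Game Pool.Agent.H238R3.Fam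

/-- distance to the nearest integer -/
noncomputable def nrm (x : ℝ) : ℝ := |x - (round x : ℝ)|

/-- `m_Q(ξ, ζ)`, the minimum of `‖qξ‖‖qζ‖` over `1 ≤ q ≤ Q` -/
noncomputable def minProd (ξ ζ : ℝ) (Q : ℕ) : ℝ :=
  sInf ((fun q : ℕ => nrm ((q:ℝ) * ξ) * nrm ((q:ℝ) * ζ)) '' Set.Icc 1 Q)

/-- `D(ξ, ζ) = limsup Q m_Q(ξ, ζ)` -/
noncomputable def D (ξ ζ : ℝ) : ℝ :=
  Filter.limsup (fun Q : ℕ => (Q:ℝ) * minProd ξ ζ Q) Filter.atTop

/-- badly approximable numbers -/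
def BadlyApproximable (ξ : ℝ) : Prop :=
  ∃ c : ℝ, 0 < c ∧ ∀ q : ℕ, 0 < q → c ≤ (q:ℝ) * nrm ((q:ℝ) * ξ)

/-- badly approximable vectors in dimension two -/
def BadVector (ξ ζ : ℝ) : Prop :=
  ∃ c : ℝ, 0 < c ∧ ∀ q : ℕ, 0 < q →
    c ≤ Real.sqrt (q:ℝ) * max (nrm ((q:ℝ) * ξ)) (nrm ((q:ℝ) * ζ))

lemma nrm_nonneg (x : ℝ) : 0 ≤ nrm x := abs_nonneg _

lemma nrm_le_half (x : ℝ) : nrm x ≤ 1/2 := abs_sub_round x

lemma bounded (ξ ζ : ℝ) (Q : ℕ) : (Q:ℝ) * minProd ξ ζ Q ≤ 1 := by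
  rcases Nat.eq_zero_or_pos Q with h | h
  · rw [h]; simp
  obtain ⟨k, hk0, hkQ, hk⟩ := Real.exists_nat_abs_mul_sub_round_le ξ h
  have h1 : minProd ξ ζ Q ≤ nrm ((k:ℝ) * ξ) * nrm ((k:ℝ) * ζ) := by
    refine csInf_le ⟨0, ?_⟩ ⟨k, ⟨hk0, hkQ⟩, rfl⟩
    rintro _ ⟨q, _, rfl⟩
    exact mul_nonneg (nrm_nonneg _) (nrm_nonneg _)
  have h2 : nrm ((k:ℝ) * ξ) ≤ 1/((Q:ℝ)+1) := hk
  have h3 := nrm_le_half ((k:ℝ) * ζ)
  have hQ : (0:ℝ) < Q := by exact_mod_cast h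
  calc (Q:ℝ) * minProd ξ ζ Q ≤ Q * (nrm ((k:ℝ) * ξ) * nrm ((k:ℝ) * ζ)) := by gcongr
    _ ≤ Q * (1/((Q:ℝ)+1) * 1) := by
        have := nrm_nonneg ((k:ℝ) * ζ)
        gcongr
        linarith
    _ ≤ 1 := by
        rw [mul_one, mul_one_div, div_le_one (by positivity)]
        linarith

lemma D_pos (ξ ζ ε : ℝ) (hε : 0 < ε)
    (h : ∀ N : ℕ, ∃ Q : ℕ, N ≤ Q ∧ 0 < Q ∧ ∀ q : ℕ, 0 < q → q ≤ Q →
      ε ≤ (Q:ℝ) * (nrm ((q:ℝ) * ξ) * nrm ((q:ℝ) * ζ))) : 0 < D ξ ζ := by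
  refine lt_of_lt_of_le hε ?_
  refine Filter.le_limsup_of_frequently_le ?_ ?_
  · rw [Filter.frequently_atTop]
    intro N
    obtain ⟨Q, hQ1, hQ0, hQ2⟩ := h N
    refine ⟨Q, hQ1, ?_⟩
    have hQr : (0:ℝ) < Q := by exact_mod_cast hQ0
    have h1 : ε / Q ≤ minProd ξ ζ Q := by
      refine le_csInf ⟨_, ⟨1, ⟨le_rfl, hQ0⟩, rfl⟩⟩ ?_
      rintro _ ⟨q, ⟨hq1, hq2⟩, rfl⟩
      rw [div_le_iff₀ hQr]
      have := hQ2 q hq1 hq2
      simp only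
      linarith
    rw [div_le_iff₀ hQr] at h1
    linarith
  · refine ⟨1, ?_⟩
    rw [Filter.eventually_map]
    exact Filter.Eventually.of_forall (fun Q => bounded ξ ζ Q)

lemma bad_int {ζ : ℝ} (h : BadlyApproximable ζ) : ∃ δ : ℝ, 0 < δ ∧ δ ≤ 1 ∧
    ∀ q p : ℤ, q ≠ 0 → δ ≤ |(q:ℝ)| * |(q:ℝ) * ζ - p| := by
  obtain ⟨c, hc0, hc⟩ := h
  refine ⟨min c 1, lt_min hc0 one_pos, min_le_right _ _, fun q p hq => (min_le_left _ _).trans ?_⟩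
  have h1 := hc q.natAbs (Int.natAbs_pos.2 hq)
  have e1 : ((q.natAbs : ℕ) : ℝ) = |(q:ℝ)| := by rw [Nat.cast_natAbs]; push_cast; rfl
  rw [e1] at h1
  refine h1.trans (mul_le_mul_of_nonneg_left ?_ (abs_nonneg _))
  unfold nrm
  rcases le_or_gt 0 (q:ℝ) with h | h
  · rw [abs_of_nonneg h]
    exact round_le _ _
  · rw [abs_of_neg h]
    have := round_le (-(q:ℝ) * ζ) (-p)
    refine this.trans (le_of_eq ?_)
    rw [← abs_neg]
    congr 1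
    push_cast
    ring

lemma bad_of {ξ c : ℝ} (hc : 0 < c)
    (h : ∀ v : ℤ × ℤ, IsCoprime v.1 v.2 → 0 < v.1 → c/(v.1:ℝ)^2 ≤ |ξ - (v.2:ℝ)/v.1|) :
    BadlyApproximable ξ := by
  refine ⟨c, hc, ?_⟩
  intro q hq
  set p : ℤ := round ((q:ℝ) * ξ) with hp
  have hqz : (q:ℤ) ≠ 0 := by omega
  obtain ⟨g, q0, p0, hg, hcop, hq0, hp0⟩ : ∃ g q0 p0 : ℤ, 0 < g ∧ IsCoprime q0 p0 ∧
      (q:ℤ) = g * q0 ∧ p = g * p0 := by
    refine ⟨(Int.gcd q p : ℤ), (q:ℤ) / (Int.gcd q p : ℤ), p / (Int.gcd q p : ℤ), ?_, ?_, ?_, ?_⟩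
    · have := Int.gcd_pos_of_ne_zero_left p hqz
      exact_mod_cast this
    · rw [Int.isCoprime_iff_gcd_eq_one]
      exact Int.gcd_ediv_gcd_ediv_gcd (Int.gcd_pos_of_ne_zero_left p hqz)
    · exact (Int.mul_ediv_cancel' (Int.gcd_dvd_left _ _)).symm
    · exact (Int.mul_ediv_cancel' (Int.gcd_dvd_right _ _)).symm
  have hq0pos : 0 < q0 := by
    by_contra hneg
    push Not at hneg
    have : g * q0 ≤ 0 := mul_nonpos_of_nonneg_of_nonpos hg.le hneg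
    omega
  have h1 := h (q0, p0) hcop hq0pos
  simp only at h1
  have hgr : (1:ℝ) ≤ (g:ℝ) := by exact_mod_cast hg
  have hq0r : (0:ℝ) < (q0:ℝ) := by exact_mod_cast hq0pos
  have hqr : (q:ℝ) = g * q0 := by exact_mod_cast hq0
  have hpr : (p:ℝ) = g * p0 := by exact_mod_cast hp0
  unfold nrm
  rw [← hp]
  have e : (q:ℝ) * ξ - p = (g * q0) * (ξ - (p0:ℝ)/q0) := by
    rw [hqr, hpr]; field_simp
  rw [e, abs_mul, abs_of_pos (by positivity : (0:ℝ) < g * q0), hqr]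
  rw [div_le_iff₀ (by positivity)] at h1
  set t := |ξ - (p0:ℝ)/q0| with ht
  have ht0 : 0 ≤ t := abs_nonneg _
  calc c ≤ t * (q0:ℝ)^2 := h1
    _ = t * (q0:ℝ)^2 * (1 * 1) := by ring
    _ ≤ t * (q0:ℝ)^2 * (g * g) := by gcongr
    _ = g * q0 * (g * q0 * t) := by ring

lemma D_pos_of {ξ ζ ε δ : ℝ} {C : ℕ} (hε : 0 < ε) (hC : 1 ≤ C) (hδ0 : 0 < δ)
    (hbad : ∀ q p : ℤ, q ≠ 0 → δ ≤ |(q:ℝ)| * |(q:ℝ)*ζ - p|)
    (hP : ∀ (m : ℕ) (v : ℤ × ℤ × ℤ), Prim v → 0 < v.1 → (v.1:ℝ) ≤ ((2:ℝ)^(C*5^m))^4 →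
        |(v.2.1:ℝ) - ζ * v.1| < 1 →
        (thP ζ ε ((2:ℝ)^(C*5^m)) v).2 ≤ |ξ - (thP ζ ε ((2:ℝ)^(C*5^m)) v).1|) :
    0 < D ξ ζ := by
  refine D_pos ξ ζ ε hε ?_
  intro N
  refine ⟨16^(C*5^N), ?_, by positivity, ?_⟩
  · have h1 : N < 5^N := Nat.lt_pow_self (by norm_num)
    have h2 : 5^N ≤ C*5^N := Nat.le_mul_of_pos_left _ hC
    have h3 : C*5^N < 16^(C*5^N) := Nat.lt_pow_self (by norm_num)
    omega
  · intro q hq hqQ
    have hqr : (0:ℝ) < q := by exact_mod_cast hq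
    have hQe : (((16^(C*5^N) : ℕ)):ℝ) = ((2:ℝ)^(C*5^N))^4 := by
      rw [Nat.cast_pow, ← pow_mul, mul_comm (C*5^N) 4, pow_mul (2:ℝ) 4]
      congr 1
      norm_num
    set p : ℤ := round ((q:ℝ) * ξ) with hp
    set p' : ℤ := round ((q:ℝ) * ζ) with hp'
    obtain ⟨g, z, hg, hz, h1, h2, h3⟩ := exists_prim (q:ℤ) p' p (by
      rintro ⟨h, _, _⟩
      omega)
    have hgr : (1:ℝ) ≤ (g:ℝ) := by exact_mod_cast hg
    have hg0 : (0:ℝ) < (g:ℝ) := lt_of_lt_of_le one_pos hgr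
    have hqg : (q:ℝ) = g * z.1 := by exact_mod_cast h1
    have hpg' : (p':ℝ) = g * z.2.1 := by exact_mod_cast h2
    have hpg : (p:ℝ) = g * z.2.2 := by exact_mod_cast h3
    have hz1 : (0:ℝ) < z.1 := by
      by_contra hneg
      push Not at hneg
      nlinarith
    have hz1' : 0 < z.1 := by exact_mod_cast hz1
    have hbz := hbad z.1 z.2.1 (by omega)
    rw [abs_of_pos hz1, show (z.1:ℝ)*ζ - z.2.1 = -((z.2.1:ℝ) - ζ * z.1) by ring, abs_neg] at hbz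
    have hnζ : nrm ((q:ℝ) * ζ) = g * |(z.2.1:ℝ) - ζ * z.1| := by
      have e : (q:ℝ) * ζ - p' = -(g * ((z.2.1:ℝ) - ζ * z.1)) := by rw [hpg', hqg]; ring
      unfold nrm
      rw [← hp', e, abs_neg, abs_mul, abs_of_pos hg0]
    set y := |(z.2.1:ℝ) - ζ * z.1| with hy
    have hy0 : 0 < y := by
      by_contra hneg
      push Not at hneg
      nlinarith
    have hnξ : nrm ((q:ℝ) * ξ) = g * (z.1 * |ξ - (z.2.2:ℝ)/z.1|) := by
      have e : (q:ℝ) * ξ - p = g * (z.1 * (ξ - (z.2.2:ℝ)/z.1)) := by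
        rw [hpg, hqg]; field_simp
      unfold nrm
      rw [← hp, e, abs_mul, abs_mul, abs_of_pos hg0, abs_of_pos hz1]
    have hy1 : y < 1 := by
      have := nrm_le_half ((q:ℝ) * ζ)
      rw [hnζ] at this
      nlinarith
    have hzQ : (z.1:ℝ) ≤ ((2:ℝ)^(C*5^N))^4 := by
      rw [← hQe]
      have h6 : (z.1:ℝ) ≤ q := by rw [hqg]; nlinarith
      have h7 : (q:ℝ) ≤ ((16^(C*5^N) : ℕ):ℝ) := by exact_mod_cast hqQ
      linarith
    have h4 := hP N z hz hz1' hzQ hy1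
    simp only [thP] at h4
    rw [← hy] at h4
    set A := (2:ℝ)^(C*5^N) with hA
    have hA0 : 0 < A := by rw [hA]; positivity
    clear_value A
    rw [hnζ, hnξ, hQe]
    set t := |ξ - (z.2.2:ℝ)/z.1| with ht
    have ht0 : 0 ≤ t := abs_nonneg _
    rw [div_le_iff₀ (by positivity)] at h4
    calc ε ≤ t * (A^4 * z.1 * y) := h4
      _ = A^4 * (z.1 * t * y) * (1 * 1) := by ring
      _ ≤ A^4 * (z.1 * t * y) * (g * g) := by gcongr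
      _ = A^4 * ((g * (z.1 * t)) * (g * y)) := by ring

lemma badVector_of {ξ ζ κ : ℝ} (hκ : 0 < κ)
    (hV : ∀ (v : ℤ × ℤ × ℤ), Prim v → 0 < v.1 →
        κ ≤ Real.sqrt (v.1:ℝ) * max |(v.2.1:ℝ) - ζ * v.1| |(v.1:ℝ) * ξ - v.2.2|) :
    BadVector ξ ζ := by
  refine ⟨κ, hκ, ?_⟩
  intro q hq
  have hqr : (0:ℝ) < q := by exact_mod_cast hq
  set p : ℤ := round ((q:ℝ) * ξ) with hp
  set p' : ℤ := round ((q:ℝ) * ζ) with hp'
  obtain ⟨g, z, hg, hz, h1, h2, h3⟩ := exists_prim (q:ℤ) p' p (by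
    rintro ⟨h, _, _⟩
    omega)
  have hgr : (1:ℝ) ≤ (g:ℝ) := by exact_mod_cast hg
  have hg0 : (0:ℝ) < (g:ℝ) := lt_of_lt_of_le one_pos hgr
  have hqg : (q:ℝ) = g * z.1 := by exact_mod_cast h1
  have hpg' : (p':ℝ) = g * z.2.1 := by exact_mod_cast h2
  have hpg : (p:ℝ) = g * z.2.2 := by exact_mod_cast h3
  have hz1 : (0:ℝ) < z.1 := by
    by_contra hneg
    push Not at hneg
    nlinarith
  have hz1' : 0 < z.1 := by exact_mod_cast hz1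
  have h4 := hV z hz hz1'
  have hnζ : nrm ((q:ℝ) * ζ) = g * |(z.2.1:ℝ) - ζ * z.1| := by
    have e : (q:ℝ) * ζ - p' = -(g * ((z.2.1:ℝ) - ζ * z.1)) := by rw [hpg', hqg]; ring
    unfold nrm
    rw [← hp', e, abs_neg, abs_mul, abs_of_pos hg0]
  have hnξ : nrm ((q:ℝ) * ξ) = g * |(z.1:ℝ) * ξ - z.2.2| := by
    have e : (q:ℝ) * ξ - p = g * ((z.1:ℝ) * ξ - z.2.2) := by rw [hpg, hqg]; ring
    unfold nrm
    rw [← hp, e, abs_mul, abs_of_pos hg0]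
  set a := |(z.2.1:ℝ) - ζ * z.1| with ha
  set b := |(z.1:ℝ) * ξ - z.2.2| with hb
  have ha0 : 0 ≤ a := abs_nonneg _
  have hb0 : 0 ≤ b := abs_nonneg _
  have h5 : Real.sqrt (z.1:ℝ) ≤ Real.sqrt (q:ℝ) := Real.sqrt_le_sqrt (by rw [hqg]; nlinarith)
  rw [hnζ, hnξ]
  have h6 : max a b ≤ max (g * b) (g * a) := by
    refine max_le ?_ ?_
    · exact le_trans (by nlinarith) (le_max_right _ _)
    · exact le_trans (by nlinarith) (le_max_left _ _)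
  calc κ ≤ Real.sqrt (z.1:ℝ) * max a b := h4
    _ ≤ Real.sqrt (q:ℝ) * max (g * b) (g * a) := by
        have : 0 ≤ max a b := ha0.trans (le_max_left _ _)
        gcongr

lemma sqrt_two_bad : BadlyApproximable (Real.sqrt 2) := by
  refine ⟨1/4, by norm_num, ?_⟩
  intro q hq
  have hq1 : (1:ℝ) ≤ q := by exact_mod_cast hq
  set s := Real.sqrt 2 with hs
  have hs2 : s^2 = 2 := Real.sq_sqrt (by norm_num)
  have hs0 : 0 ≤ s := Real.sqrt_nonneg 2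
  have hs3 : s ≤ 3/2 := by nlinarith
  set p : ℤ := round ((q:ℝ) * s) with hp
  have h1 : nrm ((q:ℝ) * s) = |(q:ℝ) * s - p| := rfl
  have h2 : |(q:ℝ) * s - p| ≤ 1/2 := by rw [← h1]; exact nrm_le_half _
  rw [h1]
  have h3 : |((q:ℝ) * s + p)| ≤ 4 * q := by
    rw [abs_le] at h2 ⊢
    constructor <;> nlinarith
  have h4 : (1:ℝ) ≤ |(q:ℝ) * s - p| * |((q:ℝ) * s + p)| := by
    rw [← abs_mul]
    have e : ((q:ℝ) * s - p) * ((q:ℝ) * s + p) = ((2 * (q:ℤ)^2 - p^2 : ℤ):ℝ) := by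
      push_cast
      linear_combination (q:ℝ)^2 * hs2
    rw [e]
    have hne : (2 * (q:ℤ)^2 - p^2 : ℤ) ≠ 0 := by
      intro h0
      have h5 : Irrational s := irrational_sqrt_two
      refine h5 ⟨(|p| : ℤ) / (q:ℤ), ?_⟩
      have h6 : (q:ℝ)^2 * s^2 = (p:ℝ)^2 := by
        rw [hs2]
        have : ((2 * (q:ℤ)^2 - p^2 : ℤ):ℝ) = 0 := by rw [h0]; simp
        push_cast at this
        linarith
      have h7 : (q:ℝ) * s = |(p:ℝ)| := by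
        rw [← abs_of_nonneg (by positivity : 0 ≤ (q:ℝ) * s)]
        rw [← sq_eq_sq_iff_abs_eq_abs, mul_pow]
        exact h6
      push_cast
      rw [div_eq_iff (by positivity)]
      linarith
    have := Int.one_le_abs hne
    exact_mod_cast this
  have h5 : 0 ≤ |(q:ℝ) * s - p| := abs_nonneg _
  nlinarith

lemma good_out {ζ ξ : ℝ} (hζ : BadlyApproximable ζ) (h : Good ζ ξ) :
    BadlyApproximable ξ ∧ BadVector ξ ζ ∧ 0 < D ξ ζ := by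
  obtain ⟨⟨c, hc, h1⟩, ⟨ε, C, hε, hC, hP⟩, ⟨κ, hκ, hV⟩⟩ := h
  obtain ⟨δ, hδ, -, hδb⟩ := bad_int hζ
  exact ⟨bad_of hc h1, badVector_of hκ hV, D_pos_of hε hC hδ hδb hP⟩

/-- **Full Hausdorff dimension for countably many badly approximable numbers and countably many
maps `x ↦ ± x + a`.** -/
theorem dim_one (ζ σ a : ℕ → ℝ) (hσ : ∀ k, σ k = 1 ∨ σ k = -1)
    (hbad : ∀ k, BadlyApproximable (ζ k)) :
    dimH {ξ : ℝ | ∀ k, BadlyApproximable (σ k * ξ + a k) ∧ BadVector (σ k * ξ + a k) (ζ k) ∧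
      0 < D (σ k * ξ + a k) (ζ k)} = 1 := by
  apply le_antisymm
  · calc _ ≤ dimH (Set.univ : Set ℝ) := dimH_mono (Set.subset_univ _)
      _ = 1 := Real.dimH_univ
  choose δ hδ hδ1 hδb using fun k => bad_int (hbad k)
  refine ENNReal.le_of_forall_nnreal_lt (fun r hr => ?_)
  rcases eq_or_lt_of_le (zero_le (a := r)) with h0 | h0
  · rw [← h0]; simp
  have hr1 : (r:ℝ) < 1 := by exact_mod_cast hr
  have hr0 : (0:ℝ) < r := by exact_mod_cast h0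
  obtain ⟨l, hl⟩ := exists_nat_gt (1/(1-(r:ℝ)))
  have hs : (r:ℝ) ≤ 1 - 1/(8*((l:ℝ)+1)) := by
    have h1 : 0 < 1 - (r:ℝ) := by linarith
    have h2 : 1 < (l:ℝ) * (1 - r) := by rwa [div_lt_iff₀ h1] at hl
    have h3 : 1/(8*((l:ℝ)+1)) ≤ 1 - (r:ℝ) := by
      rw [div_le_iff₀ (by positivity)]
      nlinarith [Nat.cast_nonneg (α := ℝ) l]
    linarith
  have h := full ζ δ σ a hσ hδ hδ1 hδb l r hr0 hs
  rw [ENNReal.ofReal_coe_nnreal] at h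
  exact h.trans (dimH_mono (fun ξ hξ k => good_out (hbad k) (hξ k)))

/-- countable sets of numbers, without maps -/
theorem dim_one_set (Z : Set ℝ) (hZ : Z.Countable) (hbad : ∀ ζ ∈ Z, BadlyApproximable ζ) :
    dimH {ξ : ℝ | BadlyApproximable ξ ∧ ∀ ζ ∈ Z, BadVector ξ ζ ∧ 0 < D ξ ζ} = 1 := by
  apply le_antisymm
  · calc _ ≤ dimH (Set.univ : Set ℝ) := dimH_mono (Set.subset_univ _)
      _ = 1 := Real.dimH_univ
  obtain ⟨f, hf⟩ := (hZ.insert (Real.sqrt 2)).exists_eq_range (Set.insert_nonempty _ _)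
  have hfb : ∀ k, BadlyApproximable (f k) := by
    intro k
    have h1 : f k ∈ insert (Real.sqrt 2) Z := by rw [hf]; exact ⟨k, rfl⟩
    rcases h1 with h1 | h1
    · rw [h1]; exact sqrt_two_bad
    · exact hbad _ h1
  rw [← dim_one f (fun _ => 1) (fun _ => 0) (fun _ => Or.inl rfl) hfb]
  refine dimH_mono (fun ξ hξ => ?_)
  simp only [Set.mem_ofPred_eq, one_mul, add_zero] at hξ ⊢
  refine ⟨(hξ 0).1, fun ζ hζ => ?_⟩
  obtain ⟨k, rfl⟩ : ∃ k, f k = ζ := by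
    have : ζ ∈ Set.range f := by rw [← hf]; exact Set.mem_insert_of_mem _ hζ
    exact this
  exact (hξ k).2

/-- countable sets of numbers and of centres of reflection -/
theorem dim_one_refl (Z A : Set ℝ) (hZ : Z.Countable) (hA : A.Countable)
    (hbad : ∀ ζ ∈ Z, BadlyApproximable ζ) :
    dimH {ξ : ℝ | ∀ a ∈ A, BadlyApproximable (ξ + a) ∧ BadlyApproximable (a - ξ) ∧
      ∀ ζ ∈ Z, 0 < D (ξ + a) ζ ∧ 0 < D (a - ξ) ζ} = 1 := by
  apply le_antisymm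
  · calc _ ≤ dimH (Set.univ : Set ℝ) := dimH_mono (Set.subset_univ _)
      _ = 1 := Real.dimH_univ
  have hZ' : (insert (Real.sqrt 2) Z).Countable := hZ.insert _
  have hA' : (insert (0:ℝ) A).Countable := hA.insert _
  have hprod : ((({1, -1} : Set ℝ) ×ˢ insert (0:ℝ) A) ×ˢ insert (Real.sqrt 2) Z).Countable :=
    (((Set.toFinite {1, -1}).countable.prod hA').prod hZ')
  obtain ⟨f, hf⟩ := hprod.exists_eq_range
    ⟨((1, 0), Real.sqrt 2), ⟨⟨Or.inl rfl, Set.mem_insert _ _⟩, Set.mem_insert _ _⟩⟩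
  have hmem : ∀ k, f k ∈ ((({1, -1} : Set ℝ) ×ˢ insert (0:ℝ) A) ×ˢ insert (Real.sqrt 2) Z) := by
    intro k
    rw [hf]
    exact ⟨k, rfl⟩
  have hfb : ∀ k, BadlyApproximable (f k).2 := by
    intro k
    rcases (hmem k).2 with h1 | h1
    · rw [h1]; exact sqrt_two_bad
    · exact hbad _ h1
  have hfs : ∀ k, (f k).1.1 = 1 ∨ (f k).1.1 = -1 := by
    intro k
    rcases (hmem k).1.1 with h1 | h1
    · exact Or.inl h1
    · exact Or.inr h1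
  rw [← dim_one (fun k => (f k).2) (fun k => (f k).1.1) (fun k => (f k).1.2) hfs hfb]
  refine dimH_mono (fun ξ hξ => ?_)
  simp only [Set.mem_ofPred_eq] at hξ ⊢
  have hget : ∀ σ a ζ, σ ∈ ({1, -1} : Set ℝ) → a ∈ insert (0:ℝ) A →
      ζ ∈ insert (Real.sqrt 2) Z → BadlyApproximable (σ * ξ + a) ∧ 0 < D (σ * ξ + a) ζ := by
    intro σ a ζ h1 h2 h3
    obtain ⟨k, hk⟩ : ((σ, a), ζ) ∈ Set.range f := by rw [← hf]; exact ⟨⟨h1, h2⟩, h3⟩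
    have h4 := hξ k
    rw [hk] at h4
    exact ⟨h4.1, h4.2.2⟩
  intro a ha
  have ha' : a ∈ insert (0:ℝ) A := Set.mem_insert_of_mem _ ha
  have e1 : ξ + a = 1 * ξ + a := by ring
  have e2 : a - ξ = -1 * ξ + a := by ring
  rw [e1, e2]
  refine ⟨(hget 1 a _ (Or.inl rfl) ha' (Set.mem_insert _ _)).1,
    (hget (-1) a _ (Or.inr rfl) ha' (Set.mem_insert _ _)).1, fun ζ hζ => ⟨?_, ?_⟩⟩
  · exact (hget 1 a ζ (Or.inl rfl) ha' (Set.mem_insert_of_mem _ hζ)).2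
  · exact (hget (-1) a ζ (Or.inr rfl) ha' (Set.mem_insert_of_mem _ hζ)).2

end Pool.Agent.Y754.GD
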