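import Pool.Agent.Y754.GD.Point

set_option autoImplicit false

/-!
# The threats of the first kind, with arbitrarily small weight

Adapted from `Pool.Agent.H238R3.Build951` (starting library).
-/

namespace Pool.Agent.Y754.GD

open Pool.Agent.H238R3.Lines Pool.Agent.H238R3.Game Pool.Agent.H238R3.Fam

/-- total weight of the dyadic classes of one level -/
lemma level_sumN (N K : ℕ) (k : ℕ) (hk : k ≤ 8) (hN : 2^47 ≤ (N:ℝ)) (ε : ℝ)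
    (hε : ε = 1/(N:ℝ)^12) :
    ∑ i ∈ Finset.range (K+1), ((N^k : ℕ):ℝ) * W (2^40 * ε * ((2:ℝ)^i/2^K)) ≤ 2^32/N := by
  have hN0 : (0:ℝ) < N := by linarith [show (0:ℝ) < 2^47 by positivity]
  have hN1 : (1:ℝ) ≤ N := by linarith [show (1:ℝ) ≤ 2^47 by norm_num]
  have h1 : ∀ i ∈ Finset.range (K+1), ((N^k : ℕ):ℝ) * W (2^40 * ε * ((2:ℝ)^i/2^K)) ≤
      (2^30/N) * W ((2:ℝ)^i/2^K) := by
    intro i _
    have e1 : 2^40 * ε = (2^10/(N:ℝ)^3)^4 := by rw [hε]; field_simp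
    have e2 : W (2^40 * ε) = 2^30/(N:ℝ)^9 := by
      rw [e1, W_pow4 (by positivity)]; field_simp
    rw [W_mul (by rw [e1]; positivity) (by positivity), e2, ← mul_assoc]
    refine mul_le_mul_of_nonneg_right ?_ (W_nonneg (by positivity))
    rw [← mul_div_assoc, div_le_div_iff₀ (by positivity) hN0]
    push_cast
    calc (N:ℝ)^k * 2^30 * N ≤ (N:ℝ)^8 * 2^30 * N := by
          have : (N:ℝ)^k ≤ (N:ℝ)^8 := pow_le_pow_right₀ hN1 hk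
          gcongr
      _ = 2^30 * (N:ℝ)^9 := by ring
  refine (Finset.sum_le_sum h1).trans ?_
  rw [← Finset.mul_sum]
  have h2 := sumW K
  have h4 : (0:ℝ) ≤ 2^30/N := by positivity
  calc (2^30/N : ℝ) * ∑ i ∈ Finset.range (K+1), W ((2:ℝ)^i/2^K) ≤ (2^30/N : ℝ) * (5/2) := by gcongr
    _ ≤ (2^30/N : ℝ) * 4 := by gcongr; norm_num
    _ = 2^32/N := by ring

/-- the threats of the rational points at stage `n` -/
def BThr (k : ℝ) (n : ℕ) : Set (ℝ × ℝ) := {t | ∃ v, okB (rho n) v ∧ t = thBk k v}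

lemma stBk (k : ℝ) : ∀ v : ℤ × ℤ, IsCoprime v.1 v.2 → 0 < v.1 → ∃ n, thBk k v ∈ BThr k n ∧
      1/(8 * (v.1:ℝ)^2) ≤ 65536 * rho n := by
  intro v hv hv0
  have h1 : (1:ℝ) ≤ (v.1:ℝ) := by exact_mod_cast hv0
  have h2 : (1:ℝ) ≤ (v.1:ℝ)^2 := one_le_pow₀ h1
  obtain ⟨n, hn1, hn2⟩ := exists_stage (1/(8 * (v.1:ℝ)^2)) (by positivity)
    ((div_le_one (by positivity)).2 (by linarith))
  exact ⟨n, ⟨v, ⟨hv, hv0, hn1, hn2⟩, rfl⟩, hn2⟩

lemma smallB (k ρ x η : ℝ) (hk0 : 0 < k) (hρ : 0 < ρ) (s : ℝ) (hs0 : 0 ≤ s) (hs1 : s ≤ 1)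
    (hs : 2^19 * k = s^4) (hη : s ≤ η) :
    Small ρ (thBk k '' {v | okB ρ v ∧ |(thBk k v).1 - x| < (thBk k v).2 + ρ}) η := by
  have h19 : 2^19 * k ≤ 1 := by rw [hs]; exact pow_le_one₀ hs0 hs1
  refine (small_of_card hρ {v | okB ρ v ∧ |(thBk k v).1 - x| < (thBk k v).2 + ρ} (thBk k) 1 (s^4)
    (fun T hT => cardBk k ρ x hk0 h19 hρ T hT) ?_ ?_ (by positivity)).mono (fun t ht => ht) ?_
  · intro v hv
    exact (thBk_rel hk0 hρ hv.1).1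
  · intro v hv
    rw [← hs]
    exact (thBk_rel hk0 hρ hv.1).2
  · rw [W_pow4 hs0]
    push_cast
    have : s^3 ≤ s := by
      calc s^3 = s^2 * s := by ring
        _ ≤ 1 * s := by
          have : s^2 ≤ 1 := pow_le_one₀ hs0 hs1
          gcongr
        _ = s := one_mul s
    linarith

theorem systemP (kB ζ δ η : ℝ) (hkB : 0 < kB) (hη : 0 < η) (hδ : 0 < δ) (hδ1 : δ ≤ 1)
    (hbad : ∀ q p : ℤ, q ≠ 0 → δ ≤ |(q:ℝ)| * |(q:ℝ)*ζ - p|) :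
    ∃ (Thr : ℕ → Set (ℝ × ℝ)) (ε : ℝ) (C : ℕ), 0 < ε ∧ 1 ≤ C ∧
      (∀ n, ∀ t ∈ Thr n, 0 < t.2 ∧ t.2 ≤ η * rho n) ∧
      (∀ (n : ℕ) (x : ℝ), (∀ m < n, ∀ t ∈ BThr kB m, ¬ (|x - t.1| + rho n ≤ t.2)) →
        (∀ m < n, ∀ t ∈ Thr m, ¬ (|x - t.1| + rho n ≤ t.2)) →
        Small (rho n) {t | t ∈ Thr n ∧ |t.1 - x| < t.2 + rho n} η) ∧
      ∀ ξ : ℝ, (∀ n, ∀ t ∈ Thr n, t.2 ≤ |ξ - t.1|) →
      ∀ (m : ℕ) (v : ℤ × ℤ × ℤ), Prim v → 0 < v.1 → (v.1:ℝ) ≤ ((2:ℝ)^(C*5^m))^4 →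
        |(v.2.1:ℝ) - ζ * v.1| < 1 →
        (thP ζ ε ((2:ℝ)^(C*5^m)) v).2 ≤ |ξ - (thP ζ ε ((2:ℝ)^(C*5^m)) v).1| := by
  classical
  obtain ⟨N, hN⟩ := exists_nat_ge (max (max (2^47) (1/δ)) (max (1/kB) (2^41/η)))
  have hN47 : 2^47 ≤ (N:ℝ) := (le_max_left _ _).trans ((le_max_left _ _).trans hN)
  have hNδ : 1 ≤ (N:ℝ) * δ := by
    have := (le_max_right _ _).trans ((le_max_left _ _).trans hN)
    rwa [div_le_iff₀ hδ] at this
  have hNk : 1 ≤ (N:ℝ) * kB := by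
    have := (le_max_left _ _).trans ((le_max_right _ _).trans hN)
    rwa [div_le_iff₀ hkB] at this
  have hNη : 2^41 ≤ (N:ℝ) * η := by
    have := (le_max_right _ _).trans ((le_max_right _ _).trans hN)
    rwa [div_le_iff₀ hη] at this
  have hN0 : (0:ℝ) < N := by linarith [show (0:ℝ) < 2^47 by positivity]
  obtain ⟨ε, hε⟩ : ∃ ε : ℝ, ε = 1/(N:ℝ)^12 := ⟨_, rfl⟩
  have hε0 : 0 < ε := by rw [hε]; positivity
  obtain ⟨C, hC, hC1⟩ : ∃ C : ℕ, 2^20/δ < (2:ℝ)^C ∧ 1 ≤ C := by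
    obtain ⟨C, hC⟩ := pow_unbounded_of_one_lt (2^20/δ) (show (1:ℝ) < 2 by norm_num)
    refine ⟨C + 1, hC.trans_le (pow_le_pow_right₀ (by norm_num) (by omega)), by omega⟩
  set A : ℕ → ℝ := fun m => (2:ℝ)^(C*5^m) with hA
  have hAC : ∀ m, 2^20/δ ≤ A m := by
    intro m
    refine hC.le.trans ?_
    refine pow_le_pow_right₀ (by norm_num) ?_
    exact Nat.le_mul_of_pos_right C (by positivity)
  have hA1 : ∀ m, 1 ≤ A m := fun m => one_le_pow₀ (by norm_num)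
  have hAδ : ∀ m, 2^20 ≤ A m * δ := by
    intro m
    have := hAC m
    rwa [div_le_iff₀ hδ] at this
  let Thr : ℕ → Set (ℝ × ℝ) := fun n =>
    {t | (∃ m i v, okP ζ (rho n) (A m) (2^i) v ∧ t = thP ζ ε (A m) v) ∨
      (∃ m j w, okD (rho n) (A m) (2^j) w ∧ t = thD ζ ε (A m) (2^j) w)}
  -- stages of the threats
  have stP : ∀ (m i : ℕ) (v : ℤ × ℤ × ℤ), Prim v → 0 < v.1 → ((2:ℝ)^i)^4 ≤ (v.1:ℝ) →
      (v.1:ℝ) < 16 * ((2:ℝ)^i)^4 → (v.1:ℝ) ≤ (A m)^4 → |(v.2.1:ℝ) - ζ * v.1| < 1 →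
      ∃ n, thP ζ ε (A m) v ∈ Thr n ∧
        1/(2^24 * (A m)^3 * ((2:ℝ)^i)^5 * |(v.2.1:ℝ) - ζ * v.1|) ≤ 65536 * rho n := by
    intro m i v hv hv0 h1 h2 h3 h4
    have hq : (0:ℝ) < (v.1:ℝ) := by exact_mod_cast hv0
    have hb := hbad v.1 v.2.1 (by omega)
    rw [abs_of_pos hq, show (v.1:ℝ)*ζ - v.2.1 = -((v.2.1:ℝ) - ζ * v.1) by ring, abs_neg] at hb
    set y := |(v.2.1:ℝ) - ζ * v.1| with hy
    have hy0 : 0 < y := by
      by_contra hneg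
      push Not at hneg
      nlinarith
    have hAm := hA1 m
    have hi1 : (1:ℝ) ≤ (2:ℝ)^i := one_le_pow₀ (by norm_num)
    set f := (2:ℝ)^i with hf
    have h5 : δ ≤ 16 * f^4 * y := hb.trans (mul_le_mul_of_nonneg_right h2.le hy0.le)
    have h6 : 1 ≤ 2^24 * (A m)^3 * f^5 * y := by
      have h7 : 1 ≤ A m * δ := le_trans (by norm_num) (hAδ m)
      have h8 : 1 ≤ (A m)^2 := one_le_pow₀ hAm
      calc (1:ℝ) ≤ A m * δ := h7
        _ ≤ A m * (16 * f^4 * y) := by gcongr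
        _ = (16 * 1 * A m) * 1 * f^4 * y := by ring
        _ ≤ (2^24 * (A m)^2 * A m) * f * f^4 * y := by gcongr; norm_num
        _ = 2^24 * (A m)^3 * f^5 * y := by ring
    obtain ⟨n, hn1, hn2⟩ := exists_stage (1/(2^24 * (A m)^3 * f^5 * y)) (by positivity)
      ((div_le_one (by positivity)).2 h6)
    exact ⟨n, Or.inl ⟨m, i, v, ⟨hv, h1, h2, h3, h4, hn1, hn2⟩, rfl⟩, hn2⟩
  have stD : ∀ (m j : ℕ) (w : ℤ × ℤ × ℤ), Prim w → 0 < w.1 → ((2:ℝ)^j)^4 ≤ (w.1:ℝ) * |(w.2.1:ℝ)| →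
      (w.1:ℝ) * |(w.2.1:ℝ)| < 16 * ((2:ℝ)^j)^4 → (w.1:ℝ) * |(w.2.1:ℝ)| ≤ (A m)^4 →
      ∃ n, thD ζ ε (A m) (2^j) w ∈ Thr n ∧
        1/(2^24 * (A m)^2 * ((2:ℝ)^j)^2 * w.1) ≤ 65536 * rho n := by
    intro m j w hw hw0 h1 h2 h3
    have hb : (1:ℝ) ≤ (w.1:ℝ) := by exact_mod_cast hw0
    have hAm := hA1 m
    have hi1 : (1:ℝ) ≤ (2:ℝ)^j := one_le_pow₀ (by norm_num)
    have h6 : 1 ≤ 2^24 * (A m)^2 * ((2:ℝ)^j)^2 * w.1 := by
      have h7 : (1:ℝ) ≤ (A m)^2 := one_le_pow₀ hAm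
      have h8 : (1:ℝ) ≤ ((2:ℝ)^j)^2 := one_le_pow₀ hi1
      calc (1:ℝ) ≤ 2^24 * 1 * 1 * 1 := by norm_num
        _ ≤ 2^24 * (A m)^2 * ((2:ℝ)^j)^2 * w.1 := by gcongr
    obtain ⟨n, hn1, hn2⟩ := exists_stage (1/(2^24 * (A m)^2 * ((2:ℝ)^j)^2 * w.1)) (by positivity)
      ((div_le_one (by positivity)).2 h6)
    exact ⟨n, Or.inr ⟨m, j, w, ⟨hw, hw0, h1, h2, h3, hn1, hn2⟩, rfl⟩, hn2⟩
  have hfin : ∀ (n : ℕ) (x : ℝ),
      (∀ m < n, ∀ t ∈ BThr kB m, ¬ (|x - t.1| + rho n ≤ t.2)) →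
      (∀ m < n, ∀ t ∈ Thr m, ¬ (|x - t.1| + rho n ≤ t.2)) →
      Small (rho n) {t | t ∈ Thr n ∧ |t.1 - x| < t.2 + rho n} η := by
    intro n x hnoB hno
    have hρ := rho_pos n
    set ρ := rho n with hρdef
    -- the active level
    let act : ℕ → Prop := fun m => 1 ≤ 2^40 * ρ * (A m)^8 ∧ ρ * δ * (2^20 * (A m)^2) < 1
    have hlt : ∀ m m', act m → act m' → ¬ (m < m') := by
      intro m m' h h' hmm
      have h1 := h.1
      have h2 := h'.2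
      have h3 : (A m)^5 ≤ A m' := by
        simp only [hA]
        rw [← pow_mul]
        refine pow_le_pow_right₀ (by norm_num) ?_
        rw [mul_assoc, ← pow_succ]
        exact Nat.mul_le_mul_left C (Nat.pow_le_pow_right (by norm_num) hmm)
      have hAm := hA1 m
      have h4 : (A m)^10 ≤ (A m')^2 := by
        calc (A m)^10 = ((A m)^5)^2 := by ring
          _ ≤ (A m')^2 := by gcongr
      have h5 : ρ * δ * (2^20 * (A m)^10) < 1 := by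
        refine lt_of_le_of_lt ?_ h2
        gcongr
      have h6 : 2^20 ≤ A m ^ 2 * δ := by
        have := hAδ m
        nlinarith
      have h7 : (1:ℝ) ≤ ρ * δ * (2^20 * (A m)^10) := by
        calc (1:ℝ) ≤ 2^40 * ρ * (A m)^8 := h1
          _ = (2^20 * ρ * (A m)^8) * 2^20 := by ring
          _ ≤ (2^20 * ρ * (A m)^8) * (A m ^ 2 * δ) := by gcongr
          _ = ρ * δ * (2^20 * (A m)^10) := by ring
      linarith
    obtain ⟨m0, hm0⟩ : ∃ m0, ∀ m, act m → m = m0 := by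
      by_cases h : ∃ m, act m
      · obtain ⟨m0, hm0⟩ := h
        refine ⟨m0, fun m hm => ?_⟩
        have h1 := hlt m m0 hm hm0
        have h2 := hlt m0 m hm0 hm
        omega
      · push Not at h
        exact ⟨0, fun m hm => absurd hm (h m)⟩
    have hAm := hA1 m0
    have actP : ∀ m i v, okP ζ ρ (A m) (2^i) v → act m ∧ i ∈ Finset.range (C*5^m+1) := by
      intro m i v hv
      have hAm := hA1 m
      have hi1 : (1:ℝ) ≤ (2:ℝ)^i := one_le_pow₀ (by norm_num)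
      obtain ⟨g1, g2, g3, g4, g5, g6, g7⟩ := id hv
      have hiA : (2:ℝ)^i ≤ A m :=
        le_of_pow_le_pow_left₀ (by norm_num) (by linarith) (g2.trans g4)
      obtain ⟨f1, f2, f3, f4, f5, f6, f7⟩ := factsP hρ hi1 hiA hδ hbad hε0 hv
      set y := |(v.2.1:ℝ) - ζ * v.1| with hy
      set f := (2:ℝ)^i with hf
      refine ⟨⟨?_, ?_⟩, ?_⟩
      · calc (1:ℝ) ≤ 2^40 * ρ * (A m)^3 * f^5 * y := f5
          _ ≤ 2^40 * ρ * (A m)^3 * (A m)^5 * 1 := by gcongr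
          _ = 2^40 * ρ * (A m)^8 := by ring
      · have h5 : δ ≤ 16 * f^4 * y := f3.trans (mul_le_mul_of_nonneg_right g3.le f2.le)
        calc ρ * δ * (2^20 * (A m)^2) ≤ ρ * (16 * f^4 * y) * (2^20 * (A m)^2) := by gcongr
          _ = ρ * (2^24 * (A m)^2 * 1 * (f^4 * 1) * y) := by ring
          _ ≤ ρ * (2^24 * (A m)^2 * (A m) * (f^4 * f) * y) := by gcongr
          _ = ρ * (2^24 * (A m)^3 * f^5 * y) := by ring
          _ < 1 := f4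
      · rw [Finset.mem_range]
        have h1 : (2:ℝ)^i ≤ (2:ℝ)^(C*5^m) := hiA
        rw [pow_le_pow_iff_right₀ (by norm_num)] at h1
        omega
    have actD : ∀ m j w, okD ρ (A m) (2^j) w → act m ∧ j ∈ Finset.range (C*5^m+1) := by
      intro m j w hw
      have hAm := hA1 m
      have hi1 : (1:ℝ) ≤ (2:ℝ)^j := one_le_pow₀ (by norm_num)
      obtain ⟨g1, g2, g3, g4, g5, g6, g7⟩ := id hw
      have hjA : (2:ℝ)^j ≤ A m :=
        le_of_pow_le_pow_left₀ (by norm_num) (by linarith) (g3.trans g5)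
      obtain ⟨f1, f2, f3, f4⟩ := factsD (ζ := ζ) hρ hi1 hjA hε0 hw
      set f := (2:ℝ)^j with hf
      have hb : (1:ℝ) ≤ (w.1:ℝ) := by exact_mod_cast g2
      have hc1 : (1:ℝ) ≤ |(w.2.1:ℝ)| := by
        have h5 : w.2.1 ≠ 0 := by
          intro h0
          rw [h0] at g3
          simp only [Int.cast_zero, abs_zero, mul_zero] at g3
          have : 0 < f^4 := by positivity
          linarith
        have := Int.one_le_abs h5
        exact_mod_cast this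
      have hbA : (w.1:ℝ) ≤ (A m)^4 := by nlinarith
      refine ⟨⟨?_, ?_⟩, ?_⟩
      · calc (1:ℝ) ≤ 2^40 * ρ * (A m)^2 * f^2 * w.1 := f2
          _ ≤ 2^40 * ρ * (A m)^2 * (A m)^2 * (A m)^4 := by gcongr
          _ = 2^40 * ρ * (A m)^8 := by ring
      · have h7 : (1:ℝ) ≤ f^2 := one_le_pow₀ hi1
        calc ρ * δ * (2^20 * (A m)^2) ≤ ρ * 1 * (2^20 * (A m)^2) := by gcongr
          _ = ρ * (2^20 * (A m)^2 * 1 * 1) := by ring
          _ ≤ ρ * (2^24 * (A m)^2 * f^2 * w.1) := by gcongr <;> norm_num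
          _ < 1 := f1
      · rw [Finset.mem_range]
        have h1 : (2:ℝ)^j ≤ (2:ℝ)^(C*5^m) := hjA
        rw [pow_le_pow_iff_right₀ (by norm_num)] at h1
        omega
    -- no threat of an earlier stage contains the interval
    have HB : ∀ v : ℤ × ℤ, IsCoprime v.1 v.2 → 0 < v.1 → 65536 * ρ < 1/(8*(v.1:ℝ)^2) →
        ¬ (|x - (thBk kB v).1| + ρ ≤ (thBk kB v).2) := by
      intro v hv hv0 hlt
      obtain ⟨m, hm1, hm2⟩ := stBk kB v hv hv0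
      exact hnoB m (stage_lt hm2 hlt) _ hm1
    have HD : ∀ (j : ℕ) (w : ℤ × ℤ × ℤ), Prim w → 0 < w.1 →
        ((2:ℝ)^j)^4 ≤ (w.1:ℝ) * |(w.2.1:ℝ)| →
        (w.1:ℝ) * |(w.2.1:ℝ)| < 16 * ((2:ℝ)^j)^4 → (w.1:ℝ) * |(w.2.1:ℝ)| ≤ (A m0)^4 →
        65536 * ρ < 1/(2^24 * (A m0)^2 * ((2:ℝ)^j)^2 * w.1) →
        ¬ (|x - (thD ζ ε (A m0) (2^j) w).1| + ρ ≤ (thD ζ ε (A m0) (2^j) w).2) := by
      intro j w h1 h2 h3 h4 h5 hlt
      obtain ⟨m, hm1, hm2⟩ := stD m0 j w h1 h2 h3 h4 h5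
      exact hno m (stage_lt hm2 hlt) _ hm1
    have HP : ∀ (i : ℕ) (v : ℤ × ℤ × ℤ), Prim v → 0 < v.1 → ((2:ℝ)^i)^4 ≤ (v.1:ℝ) →
        (v.1:ℝ) < 16 * ((2:ℝ)^i)^4 → (v.1:ℝ) ≤ (A m0)^4 → |(v.2.1:ℝ) - ζ * v.1| < 1 →
        65536 * ρ < 1/(2^24 * (A m0)^3 * ((2:ℝ)^i)^5 * |(v.2.1:ℝ) - ζ * v.1|) →
        ¬ (|x - (thP ζ ε (A m0) v).1| + ρ ≤ (thP ζ ε (A m0) v).2) := by
      intro i v h1 h2 h3 h4 h5 h6 hlt
      obtain ⟨m, hm1, hm2⟩ := stP m0 i v h1 h2 h3 h4 h5 h6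
      exact hno m (stage_lt hm2 hlt) _ hm1
    have SP : Small ρ {t | ∃ i ∈ Finset.range (C*5^m0+1), t ∈ thP ζ ε (A m0) ''
        {v | okP ζ ρ (A m0) (2^i) v ∧ |(thP ζ ε (A m0) v).1 - x| < (thP ζ ε (A m0) v).2 + ρ}}
        (2^32/N) := by
      refine (Small.biUnion hρ (Finset.range (C*5^m0+1)) (fun i => thP ζ ε (A m0) ''
        {v | okP ζ ρ (A m0) (2^i) v ∧ |(thP ζ ε (A m0) v).1 - x| < (thP ζ ε (A m0) v).2 + ρ})
        (fun i => ((N^8 : ℕ):ℝ) * W (2^40 * ε * ((2:ℝ)^i/2^(C*5^m0)))) ?_).mono (fun t ht => ht)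
        (level_sumN N (C*5^m0) 8 le_rfl hN47 ε hε)
      intro i hi
      have hi1 : (1:ℝ) ≤ (2:ℝ)^i := one_le_pow₀ (by norm_num)
      have hiA : (2:ℝ)^i ≤ A m0 := by
        refine pow_le_pow_right₀ (by norm_num) ?_
        have := Finset.mem_range.1 hi
        omega
      refine small_of_card hρ _ _ (N^8) _ (fun T hT => ?_) ?_ ?_ (by positivity)
      · exact cardPk kB ζ ρ x (A m0) (2^i) δ ε hkB N hNk hρ hi1 hiA hδ hbad hN47 hNδ hε HB HD T hT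
      · intro v hv
        exact (factsP hρ hi1 hiA hδ hbad hε0 hv.1).2.2.2.2.2.1
      · intro v hv
        exact (factsP hρ hi1 hiA hδ hbad hε0 hv.1).2.2.2.2.2.2
    have SD : Small ρ {t | ∃ j ∈ Finset.range (C*5^m0+1), t ∈ thD ζ ε (A m0) (2^j) ''
        {w | okD ρ (A m0) (2^j) w ∧
          |(thD ζ ε (A m0) (2^j) w).1 - x| < (thD ζ ε (A m0) (2^j) w).2 + ρ}}
        (2^32/N) := by
      refine (Small.biUnion hρ (Finset.range (C*5^m0+1)) (fun j => thD ζ ε (A m0) (2^j) ''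
        {w | okD ρ (A m0) (2^j) w ∧
          |(thD ζ ε (A m0) (2^j) w).1 - x| < (thD ζ ε (A m0) (2^j) w).2 + ρ})
        (fun j => ((N^6 : ℕ):ℝ) * W (2^40 * ε * ((2:ℝ)^j/2^(C*5^m0)))) ?_).mono (fun t ht => ht)
        (level_sumN N (C*5^m0) 6 (by norm_num) hN47 ε hε)
      intro i hi
      have hi1 : (1:ℝ) ≤ (2:ℝ)^i := one_le_pow₀ (by norm_num)
      have hiA : (2:ℝ)^i ≤ A m0 := by
        refine pow_le_pow_right₀ (by norm_num) ?_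
        have := Finset.mem_range.1 hi
        omega
      refine small_of_card hρ _ _ (N^6) _ (fun T hT => ?_) ?_ ?_ (by positivity)
      · exact cardD ζ ρ x (A m0) (2^i) δ ε N hρ hi1 hiA hδ hbad hN47 hε HP T hT
      · intro v hv
        exact (factsD hρ hi1 hiA hε0 hv.1).2.2.1
      · intro v hv
        exact (factsD hρ hi1 hiA hε0 hv.1).2.2.2
    refine (SP.union hρ SD).mono ?_ (by
      rw [← add_div, div_le_iff₀ hN0]
      linarith [show (2:ℝ)^32 + 2^32 ≤ 2^41 by norm_num])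
    rintro t ⟨ht, hmeet⟩
    rcases ht with ⟨m, i, v, hv, rfl⟩ | ⟨m, j, w, hw, rfl⟩
    · obtain ⟨h1, h2⟩ := actP m i v hv
      have := hm0 m h1
      subst this
      exact Or.inl ⟨i, h2, v, ⟨hv, hmeet⟩, rfl⟩
    · obtain ⟨h1, h2⟩ := actD m j w hw
      have := hm0 m h1
      subst this
      exact Or.inr ⟨j, h2, w, ⟨hw, hmeet⟩, rfl⟩
  have hεη : 2^40 * ε ≤ η := by
    rw [hε, mul_one_div, div_le_iff₀ (by positivity)]
    have hN1 : (1:ℝ) ≤ N := by linarith [show (1:ℝ) ≤ 2^47 by norm_num]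
    have h1 : (N:ℝ) ≤ (N:ℝ)^12 := by
      calc (N:ℝ) = (N:ℝ)^1 := (pow_one _).symm
        _ ≤ (N:ℝ)^12 := pow_le_pow_right₀ hN1 (by norm_num)
    calc (2:ℝ)^40 ≤ 2^41 := by norm_num
      _ ≤ (N:ℝ) * η := hNη
      _ ≤ (N:ℝ)^12 * η := by gcongr
      _ = η * (N:ℝ)^12 := by ring
  refine ⟨Thr, ε, C, hε0, hC1, ?_, hfin, fun ξ hξ => ?_⟩
  · rintro n t (⟨m, i, v, hv, rfl⟩ | ⟨m, j, w, hw, rfl⟩)
    · have hi1 : (1:ℝ) ≤ (2:ℝ)^i := one_le_pow₀ (by norm_num)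
      have hiA : (2:ℝ)^i ≤ A m :=
        le_of_pow_le_pow_left₀ (by norm_num) (by linarith [hA1 m]) (hv.2.1.trans hv.2.2.2.1)
      obtain ⟨-, -, -, -, -, f6, f7⟩ := factsP (rho_pos n) hi1 hiA hδ hbad hε0 hv
      refine ⟨f6, ?_⟩
      rw [div_le_iff₀ (rho_pos n)] at f7
      refine f7.trans ?_
      have hA0 : 0 < A m := by linarith [hA1 m]
      have h1 : (2:ℝ)^i/A m ≤ 1 := (div_le_one hA0).2 hiA
      have h2 : 2^40 * ε * ((2:ℝ)^i/A m) ≤ η := by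
        calc 2^40 * ε * ((2:ℝ)^i/A m) ≤ 2^40 * ε * 1 := by gcongr
          _ ≤ η := by linarith
      exact mul_le_mul_of_nonneg_right h2 (rho_pos n).le
    · have hi1 : (1:ℝ) ≤ (2:ℝ)^j := one_le_pow₀ (by norm_num)
      have hiA : (2:ℝ)^j ≤ A m :=
        le_of_pow_le_pow_left₀ (by norm_num) (by linarith [hA1 m]) (hw.2.2.1.trans hw.2.2.2.2.1)
      obtain ⟨-, -, f6, f7⟩ := factsD (ζ := ζ) (rho_pos n) hi1 hiA hε0 hw
      refine ⟨f6, ?_⟩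
      rw [div_le_iff₀ (rho_pos n)] at f7
      refine f7.trans ?_
      have hA0 : 0 < A m := by linarith [hA1 m]
      have h1 : (2:ℝ)^j/A m ≤ 1 := (div_le_one hA0).2 hiA
      have h2 : 2^40 * ε * ((2:ℝ)^j/A m) ≤ η := by
        calc 2^40 * ε * ((2:ℝ)^j/A m) ≤ 2^40 * ε * 1 := by gcongr
          _ ≤ η := by linarith
      exact mul_le_mul_of_nonneg_right h2 (rho_pos n).le
  · intro m v hv hv0 hvA hy
    have h1 : (1:ℝ) ≤ (v.1:ℝ) := by exact_mod_cast hv0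
    obtain ⟨i, hi1, hi2⟩ := exists_pow16 _ h1
    obtain ⟨n, hn, _⟩ := stP m i v hv hv0 hi1 hi2 hvA hy
    exact hξ n _ hn

end Pool.Agent.Y754.GD
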